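import Mathlib

open Real

namespace Pool.Agent.H.MP_a763a9_pr

/-- Gibbs inequality for two atoms -/
lemma gib {A B a : ℝ} (hA : 0 < A) (hB : 0 < B) (h0 : 0 ≤ a) (h1 : a ≤ 1) :
    binEntropy a + (1 - a) * log A + a * log B ≤ log (A + B) := by
  have k : ∀ {x y : ℝ}, 0 ≤ x → 0 < y → x * log x⁻¹ + x * log y ≤ y - x := by
    intro x y hx hy
    rcases hx.eq_or_lt with rfl | hx
    · simpa using hy.le
    · rw [← mul_add, ← log_mul (by positivity) hy.ne']
      refine (mul_le_mul_of_nonneg_left (log_le_sub_one_of_pos (by positivity)) hx.le).trans_eq ?_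
      field_simp
  have hS : 0 < A + B := by positivity
  have k1 := k h0 (div_pos hB hS)
  have k2 := k (sub_nonneg.2 h1) (div_pos hA hS)
  rw [log_div hB.ne' hS.ne'] at k1
  rw [log_div hA.ne' hS.ne'] at k2
  have : B / (A + B) + A / (A + B) = 1 := by field_simp; ring
  unfold binEntropy
  nlinarith

lemma binf {A B a ε : ℝ} (hA : 0 < A) (hB : 0 < B) (h0 : 0 ≤ a) (h1 : a ≤ 1) (hε : 0 < ε) :
    ∃ s, log (A + exp s * B) - s * a ≤ binEntropy a + (1 - a) * log A + a * log B + ε := by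
  have l1 : log (1 + ε) ≤ ε := by linarith [log_le_sub_one_of_pos (by positivity : 0 < 1 + ε)]
  rcases h0.eq_or_lt with rfl | h0
  · refine ⟨log (ε * A / B), ?_⟩
    rw [exp_log (by positivity), show A + ε * A / B * B = A * (1 + ε) by field_simp,
      log_mul hA.ne' (by positivity)]
    simpa using l1
  rcases h1.eq_or_lt with rfl | h1
  · refine ⟨log (A / (ε * B)), ?_⟩
    rw [exp_log (by positivity), mul_one, ← log_div (by positivity) (by positivity),
      show (A + A / (ε * B) * B) / (A / (ε * B)) = B * (1 + ε) by field_simp; ring,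
      log_mul hB.ne' (by positivity)]
    simpa using l1
  have h2 : 0 < 1 - a := by linarith
  refine ⟨log (a * A / ((1 - a) * B)), ?_⟩
  rw [exp_log (by positivity), show A + a * A / ((1 - a) * B) * B = A / (1 - a) by field_simp; ring,
    log_div hA.ne' h2.ne', log_div (by positivity) (by positivity), log_mul h0.ne' hA.ne',
    log_mul h2.ne' hB.ne']
  unfold binEntropy
  rw [log_inv, log_inv]
  nlinarith

noncomputable def L (J s t : ℝ) : ℝ := log (1 + exp s + exp t + exp (s + t + J))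

noncomputable def psi (J a b : ℝ) : ℝ := ⨅ p : ℝ × ℝ, (L J p.1 p.2 - p.1 * a - p.2 * b)

noncomputable def ell (t : ℝ) : ℝ := log (1 + exp t)

lemma L_eq (J s t : ℝ) : L J s t = log ((1 + exp t) + exp s * (1 + exp (t + J))) := by
  unfold L
  congr 1
  rw [add_assoc s, exp_add s]; ring

lemma ell_ge {b : ℝ} (h0 : 0 ≤ b) (h1 : b ≤ 1) (t : ℝ) : binEntropy b + t * b ≤ ell t := by
  have := gib one_pos (exp_pos t) h0 h1
  simp only [log_one, log_exp] at this
  unfold ell; linarith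

lemma ell_mono {t J : ℝ} (hJ : 0 ≤ J) : ell t ≤ ell (t + J) :=
  log_le_log (by positivity) (by gcongr; linarith)

lemma ell_lip {t J : ℝ} (hJ : 0 ≤ J) : ell (t + J) ≤ ell t + J := by
  unfold ell
  rw [← log_exp J, ← log_mul (by positivity) (by positivity), log_exp]
  refine log_le_log (by positivity) ?_
  rw [exp_add]
  nlinarith [one_le_exp hJ]

lemma ell_tp {t t' J : ℝ} (hJ : 0 ≤ J) (h : t ≤ t') : ell (t + J) + ell t' ≤ ell (t' + J) + ell t := by
  unfold ell
  rw [← log_mul (by positivity) (by positivity), ← log_mul (by positivity) (by positivity)]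
  refine log_le_log (by positivity) ?_
  rw [exp_add, exp_add]
  nlinarith [mul_nonneg (sub_nonneg.2 (one_le_exp hJ)) (sub_nonneg.2 (exp_le_exp.2 h))]

lemma L_ge {a : ℝ} (h0 : 0 ≤ a) (h1 : a ≤ 1) (J s t : ℝ) :
    binEntropy a + (1 - a) * ell t + a * ell (t + J) + s * a ≤ L J s t := by
  have := gib (A := 1 + exp t) (B := exp s * (1 + exp (t + J))) (by positivity) (by positivity) h0 h1
  rw [log_mul (by positivity) (by positivity), log_exp] at this
  rw [L_eq]; unfold ell; linarith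

variable {J a b : ℝ}

lemma psi_le (hJ : 0 ≤ J) (ha : a ∈ Set.Icc (0 : ℝ) 1) (hb : b ∈ Set.Icc (0 : ℝ) 1) (s t : ℝ) :
    psi J a b ≤ L J s t - s * a - t * b := by
  refine ciInf_le (f := fun p : ℝ × ℝ => L J p.1 p.2 - p.1 * a - p.2 * b) ⟨0, ?_⟩ (s, t)
  rintro _ ⟨⟨s, t⟩, rfl⟩
  have h1 := L_ge ha.1 ha.2 J s t
  have h2 := ell_ge hb.1 hb.2 t
  have h3 := mul_le_mul_of_nonneg_left (ell_mono (t := t) hJ) ha.1
  have := binEntropy_nonneg ha.1 ha.2
  have := binEntropy_nonneg hb.1 hb.2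
  simp only
  linarith

lemma le_psi {c : ℝ} (h : ∀ s t, c ≤ L J s t - s * a - t * b) : c ≤ psi J a b :=
  le_ciInf fun p => h p.1 p.2

lemma psi_symm (J a b : ℝ) : psi J a b = psi J b a := by
  unfold psi
  rw [← (Equiv.prodComm ℝ ℝ).iInf_comp]
  refine iInf_congr fun p => ?_
  simp only [L, Equiv.prodComm_apply, Prod.fst_swap, Prod.snd_swap]
  rw [add_comm p.2 p.1, add_right_comm 1]; ring

/-- edge term of the Bethe functional -/
noncomputable def I (J a b : ℝ) : ℝ := psi J a b - binEntropy a - binEntropy b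

lemma I_symm (J a b : ℝ) : I J a b = I J b a := by unfold I; rw [psi_symm]; ring

lemma I_le (hJ : 0 ≤ J) (ha : a ∈ Set.Icc (0 : ℝ) 1) (hb : b ∈ Set.Icc (0 : ℝ) 1) (t : ℝ) :
    I J a b + binEntropy b ≤ (1 - a) * ell t + a * ell (t + J) - t * b := by
  refine le_of_forall_pos_le_add fun ε hε => ?_
  obtain ⟨s, hs⟩ := binf (A := 1 + exp t) (B := 1 + exp (t + J)) (by positivity) (by positivity)
    ha.1 ha.2 hε
  have := psi_le hJ ha hb s t
  rw [L_eq] at this
  unfold I ell; linarith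

lemma le_I (ha : a ∈ Set.Icc (0 : ℝ) 1) {c : ℝ}
    (h : ∀ t, c ≤ (1 - a) * ell t + a * ell (t + J) - t * b) : c ≤ I J a b + binEntropy b := by
  have : c + binEntropy a ≤ psi J a b := le_psi fun s t => by
    linarith [h t, L_ge ha.1 ha.2 J s t]
  unfold I; linarith

lemma I_conc (hJ : 0 ≤ J) {p a' b' : ℝ} (hp : p ∈ Set.Icc (0 : ℝ) 1) (ha : a ∈ Set.Icc (0 : ℝ) 1)
    (hb : b ∈ Set.Icc (0 : ℝ) 1) (ha' : a' ∈ Set.Icc (0 : ℝ) 1) (hb' : b' ∈ Set.Icc (0 : ℝ) 1) :
    (1 - p) * (I J a b + binEntropy b) + p * (I J a' b' + binEntropy b') ≤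
      I J ((1 - p) * a + p * a') ((1 - p) * b + p * b') + binEntropy ((1 - p) * b + p * b') := by
  refine le_I ⟨?_, ?_⟩ fun t => ?_
  · nlinarith [hp.1, hp.2, ha.1, ha'.1]
  · nlinarith [hp.1, hp.2, ha.2, ha'.2]
  · have h1 := mul_le_mul_of_nonneg_left (I_le hJ ha hb t) (sub_nonneg.2 hp.2)
    have h2 := mul_le_mul_of_nonneg_left (I_le hJ ha' hb' t) hp.1
    linarith

lemma I_lip (hJ : 0 ≤ J) {a' : ℝ} (ha : a ∈ Set.Icc (0 : ℝ) 1) (ha' : a' ∈ Set.Icc (0 : ℝ) 1)
    (hb : b ∈ Set.Icc (0 : ℝ) 1) : I J a b ≤ I J a' b + J * |a - a'| := by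
  have : I J a b + binEntropy b - J * |a - a'| ≤ I J a' b + binEntropy b := le_I ha' fun t => by
    have h1 := I_le hJ ha hb t
    have h2 := ell_mono (t := t) hJ
    have h3 := ell_lip (t := t) hJ
    nlinarith [le_abs_self (a - a'), abs_nonneg (a - a')]
  linarith

lemma I_super (hJ : 0 ≤ J) {a' b' : ℝ} (ha : a ∈ Set.Icc (0 : ℝ) 1) (hb : b ∈ Set.Icc (0 : ℝ) 1)
    (ha' : a' ∈ Set.Icc (0 : ℝ) 1) (hb' : b' ∈ Set.Icc (0 : ℝ) 1) (h1 : a ≤ a') (h2 : b ≤ b') :
    I J a b' + I J a' b ≤ I J a b + I J a' b' := by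
  have : I J a b' + binEntropy b' + (I J a' b + binEntropy b) - (I J a' b' + binEntropy b')
      ≤ I J a b + binEntropy b := le_I ha fun t => by
    have : I J a b' + binEntropy b' + (I J a' b + binEntropy b) -
        ((1 - a) * ell t + a * ell (t + J) - t * b) ≤ I J a' b' + binEntropy b' :=
      le_I ha' fun t' => by
        rcases le_total t t' with h | h
        · nlinarith [I_le hJ ha hb' t', I_le hJ ha' hb t,
            mul_nonneg (sub_nonneg.2 h1) (sub_nonneg.2 (ell_tp hJ h))]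
        · nlinarith [I_le hJ ha hb' t, I_le hJ ha' hb t',
            mul_nonneg (sub_nonneg.2 h2) (sub_nonneg.2 h)]
    linarith
  linarith

lemma I_nonneg (hJ : 0 ≤ J) (ha : a ∈ Set.Icc (0 : ℝ) 1) (hb : b ∈ Set.Icc (0 : ℝ) 1) :
    0 ≤ I J a b := by
  have : binEntropy b ≤ I J a b + binEntropy b := le_I ha fun t => by
    nlinarith [ell_ge hb.1 hb.2 t, mul_le_mul_of_nonneg_left (ell_mono (t := t) hJ) ha.1]
  linarith

lemma I_zero (hJ : 0 ≤ J) (hb : b ∈ Set.Icc (0 : ℝ) 1) : I J 0 b = 0 := by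
  refine le_antisymm (le_of_forall_pos_le_add fun ε hε => ?_) (I_nonneg hJ (by simp) hb)
  obtain ⟨s, hs⟩ := binf one_pos one_pos hb.1 hb.2 hε
  have := I_le hJ (a := 0) (by simp) hb s
  simp only [mul_one, log_one] at hs
  unfold ell at this
  linarith

lemma I_one (J : ℝ) : J ≤ I J 1 1 := by
  have : J ≤ I J 1 1 + binEntropy 1 := le_I (by simp) fun t => by
    have := ell_ge zero_le_one le_rfl (t + J)
    simp only [binEntropy_one] at this
    linarith
  simpa using this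

lemma I_le_J (hJ : 0 ≤ J) (ha : a ∈ Set.Icc (0 : ℝ) 1) (hb : b ∈ Set.Icc (0 : ℝ) 1) :
    I J a b ≤ J := by
  have := I_lip hJ ha (a' := 0) (by simp) hb
  rw [I_zero hJ hb, sub_zero, abs_of_nonneg ha.1] at this
  nlinarith [ha.2]

lemma L_conv {p : ℝ} (h0 : 0 ≤ p) (h1 : p ≤ 1) (K s t s' t' : ℝ) :
    L (p * K) (p * s + (1 - p) * s') (p * t + (1 - p) * t') ≤ p * L K s t + (1 - p) * L 0 s' t' := by
  have k : ∀ x y : ℝ, exp (p * x + (1 - p) * y) / exp (p * L K s t + (1 - p) * L 0 s' t')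
      ≤ p * (exp x / exp (L K s t)) + (1 - p) * (exp y / exp (L 0 s' t')) := by
    intro x y
    have := convexOn_exp.2 (Set.mem_univ (x - L K s t)) (Set.mem_univ (y - L 0 s' t')) h0
      (sub_nonneg.2 h1) (by ring)
    simp only [smul_eq_mul, exp_sub] at this
    rw [← exp_sub]
    refine le_trans (le_of_eq (congrArg _ (by ring))) this
  have e1 : exp (L K s t) = 1 + exp s + exp t + exp (s + t + K) := exp_log (by positivity)
  have e2 : exp (L 0 s' t') = 1 + exp s' + exp t' + exp (s' + t' + 0) := exp_log (by positivity)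
  have k1 := k 0 0
  have k2 := k s s'
  have k3 := k t t'
  have k4 := k (s + t + K) (s' + t' + 0)
  have a1 : exp 0 / exp (L K s t) + exp s / exp (L K s t) + exp t / exp (L K s t)
      + exp (s + t + K) / exp (L K s t) = 1 := by rw [e1, exp_zero]; field_simp
  have a2 : exp 0 / exp (L 0 s' t') + exp s' / exp (L 0 s' t') + exp t' / exp (L 0 s' t')
      + exp (s' + t' + 0) / exp (L 0 s' t') = 1 := by rw [e2, exp_zero]; field_simp
  rw [L, log_le_iff_le_exp (by positivity), ← div_le_one (exp_pos _), add_div, add_div, add_div,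
    show p * s + (1 - p) * s' + (p * t + (1 - p) * t') + p * K
      = p * (s + t + K) + (1 - p) * (s' + t' + 0) by ring]
  rw [mul_zero, mul_zero, add_zero, exp_zero] at k1
  rw [exp_zero] at a1 a2
  nlinarith

lemma psi_conv {K : ℝ} (hJ : 0 ≤ J) (hK : 0 ≤ K) (ha : a ∈ Set.Icc (0 : ℝ) 1)
    (hb : b ∈ Set.Icc (0 : ℝ) 1) : psi K a b + I J a b ≤ psi (K + J) a b := by
  have h0 : psi 0 a b ≤ binEntropy a + binEntropy b := by
    have := I_le_J le_rfl ha hb
    unfold I at this; linarith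
  suffices psi K a b + psi J a b ≤ psi (K + J) a b + psi 0 a b by unfold I; linarith
  rcases (add_nonneg hK hJ).eq_or_lt with h | h
  · rw [← h, show K = 0 by linarith, show J = 0 by linarith]
  have : psi K a b + psi J a b - psi 0 a b ≤ psi (K + J) a b := le_psi fun s t => by
    have : psi K a b + psi J a b - (L (K + J) s t - s * a - t * b) ≤ psi 0 a b := le_psi fun s' t' => by
      have p0 : 0 ≤ K / (K + J) := by positivity
      have p1 : K / (K + J) ≤ 1 := by rw [div_le_one h]; linarith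
      have c1 := L_conv p0 p1 (K + J) s t s' t'
      have c2 := L_conv (sub_nonneg.2 p1) (by linarith) (K + J) s t s' t'
      rw [div_mul_cancel₀ _ h.ne'] at c1
      rw [show (1 - K / (K + J)) * (K + J) = J by field_simp; ring] at c2
      generalize K / (K + J) = p at *
      linarith [psi_le hK ha hb (p * s + (1 - p) * s') (p * t + (1 - p) * t'),
        psi_le hJ ha hb ((1 - p) * s + (1 - (1 - p)) * s') ((1 - p) * t + (1 - (1 - p)) * t')]
    linarith
  linarith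

/-- the four-number step of the lower bound -/
lemma four {r₀ r₁ r₂ r₃ Γ : ℝ} (hJ : 0 ≤ J) (ha : a ∈ Set.Icc (0 : ℝ) 1) (hb : b ∈ Set.Icc (0 : ℝ) 1)
    (h₀ : 0 < r₀) (h₁ : 0 < r₁) (h₂ : 0 < r₂) (h : r₁ * r₂ ≤ r₀ * r₃)
    (H : ∀ s t, Γ + s * a + t * b ≤ log (r₀ + r₁ * exp s + r₂ * exp t + r₃ * exp (s + t))) :
    Γ + I J a b ≤ log (r₀ + r₁ + r₂ + r₃ * exp J) := by
  have h₃ : 0 < r₃ := (mul_pos_iff_of_pos_left h₀).1 (lt_of_lt_of_le (by positivity) h)
  obtain ⟨s₀, rfl⟩ : ∃ s₀, r₁ = r₀ * exp s₀ := ⟨log (r₁ / r₀), by rw [exp_log (by positivity)]; field_simp⟩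
  obtain ⟨t₀, rfl⟩ : ∃ s₀, r₂ = r₀ * exp s₀ := ⟨log (r₂ / r₀), by rw [exp_log (by positivity)]; field_simp⟩
  obtain ⟨K, rfl⟩ : ∃ K, r₃ = r₀ * exp (s₀ + t₀ + K) :=
    ⟨log (r₃ / r₀) - s₀ - t₀, by
      rw [show ∀ x : ℝ, s₀ + t₀ + (x - s₀ - t₀) = x from fun x => by ring, exp_log (by positivity)]
      field_simp⟩
  have hK : 0 ≤ K := by
    rw [← one_le_exp_iff]
    rw [exp_add, exp_add] at h
    refine le_of_mul_le_mul_left (a := r₀ * exp s₀ * (r₀ * exp t₀)) ?_ (by positivity)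
    linarith
  have k1 : Γ - log r₀ - s₀ * a - t₀ * b ≤ psi K a b := le_psi fun s t => by
    have := H (s - s₀) (t - t₀)
    rw [show r₀ + r₀ * exp s₀ * exp (s - s₀) + r₀ * exp t₀ * exp (t - t₀) + r₀ * exp (s₀ + t₀ + K) *
      exp (s - s₀ + (t - t₀)) = r₀ * (1 + exp s + exp t + exp (s + t + K)) by
        simp only [mul_assoc, ← exp_add]; ring_nf, log_mul h₀.ne' (by positivity)] at this
    unfold L; linarith
  have k2 := psi_conv hJ hK ha hb
  have k3 := psi_le (add_nonneg hK hJ) ha hb s₀ t₀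
  rw [show r₀ + r₀ * exp s₀ + r₀ * exp t₀ + r₀ * exp (s₀ + t₀ + K) * exp J
    = r₀ * (1 + exp s₀ + exp t₀ + exp (s₀ + t₀ + (K + J))) by
      simp only [mul_assoc, ← exp_add]; ring_nf, log_mul h₀.ne' (by positivity)]
  unfold L at k3
  linarith

/-- information gained about a binary variable -/
lemma info_le {p a a' : ℝ} (hp : p ∈ Set.Icc (0 : ℝ) 1) (ha : a ∈ Set.Icc (0 : ℝ) 1)
    (ha' : a' ∈ Set.Icc (0 : ℝ) 1) {q : ℝ} (hq : q = (1 - p) * a + p * a') (h0 : 0 < q) (h1 : q < 1) :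
    binEntropy q - (1 - p) * binEntropy a - p * binEntropy a' ≤
      p * (1 - p) * (a' - a) ^ 2 / (q * (1 - q)) := by
  have k : ∀ {x y : ℝ}, 0 ≤ x → 0 < y → x * log y⁻¹ - x * log x⁻¹ ≤ x * (x / y - 1) := by
    intro x y hx hy
    rcases hx.eq_or_lt with rfl | hx
    · simp
    · rw [← mul_sub, log_inv, log_inv, neg_sub_neg, ← log_div hx.ne' hy.ne']
      exact mul_le_mul_of_nonneg_left (log_le_sub_one_of_pos (by positivity)) hx.le
  have h2 : 0 < 1 - q := by linarith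
  have k1 := mul_le_mul_of_nonneg_left (add_le_add (k ha.1 h0) (k (sub_nonneg.2 ha.2) h2))
    (sub_nonneg.2 hp.2)
  have k2 := mul_le_mul_of_nonneg_left (add_le_add (k ha'.1 h0) (k (sub_nonneg.2 ha'.2) h2)) hp.1
  have e : (1 - p) * (a * (a / q - 1) + (1 - a) * ((1 - a) / (1 - q) - 1)) +
      p * (a' * (a' / q - 1) + (1 - a') * ((1 - a') / (1 - q) - 1))
      = p * (1 - p) * (a' - a) ^ 2 / (q * (1 - q)) := by
    field_simp
    rw [hq]; ring
  rw [← e]
  unfold binEntropy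
  have e1 : q * log q⁻¹ = (1 - p) * (a * log q⁻¹) + p * (a' * log q⁻¹) := by
    nth_rewrite 1 [hq]; ring
  have e2 : (1 - q) * log (1 - q)⁻¹ = (1 - p) * ((1 - a) * log (1 - q)⁻¹) +
      p * ((1 - a') * log (1 - q)⁻¹) := by
    nth_rewrite 1 [hq]; ring
  linarith

lemma info_nonneg {p a a' : ℝ} (hp : p ∈ Set.Icc (0 : ℝ) 1) (ha : a ∈ Set.Icc (0 : ℝ) 1)
    (ha' : a' ∈ Set.Icc (0 : ℝ) 1) :
    (1 - p) * binEntropy a + p * binEntropy a' ≤ binEntropy ((1 - p) * a + p * a') :=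
  strictConcave_binEntropy.concaveOn.2 ha ha' (sub_nonneg.2 hp.2) hp.1 (by ring)

end Pool.Agent.H.MP_a763a9_pr
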