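import Mathlib
import Pool.Agent.H.MP_a763a9_pr.A

open Real Finset Function

namespace Pool.Agent.H.MP_a763a9_pr

variable {V : Type} [Fintype V] [DecidableEq V]

def X (σ : V → Bool) (v : V) : ℝ := if σ v then 1 else 0

omit [Fintype V] [DecidableEq V] in
lemma X_mem (σ : V → Bool) (v : V) : X σ v ∈ Set.Icc (0 : ℝ) 1 := by
  unfold X; split_ifs <;> simp

omit [Fintype V] [DecidableEq V] in
lemma X_mono (v : V) : Monotone fun σ : V → Bool => X σ v := by
  intro σ σ' h
  have := h v
  simp only [X]
  revert this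
  cases σ v <;> cases σ' v <;> simp

noncomputable def mu (W : (V → Bool) → ℝ) (S : Finset V) (τ σ : V → Bool) : ℝ :=
  if ∀ v ∈ S, σ v = τ v then W σ else 0

noncomputable def Z (W : (V → Bool) → ℝ) (S : Finset V) (τ : V → Bool) (f : (V → Bool) → ℝ) : ℝ :=
  ∑ σ, mu W S τ σ * f σ

noncomputable def Ex (W : (V → Bool) → ℝ) (S : Finset V) (τ : V → Bool) (f : (V → Bool) → ℝ) : ℝ :=
  Z W S τ f / Z W S τ 1

noncomputable def q (W : (V → Bool) → ℝ) (S : Finset V) (τ : V → Bool) (v : V) : ℝ :=
  Ex W S τ fun σ => X σ v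

noncomputable def cov (W : (V → Bool) → ℝ) (S : Finset V) (τ : V → Bool) (u v : V) : ℝ :=
  Ex W S τ (fun σ => X σ u * X σ v) - q W S τ u * q W S τ v

variable {W : (V → Bool) → ℝ} {S : Finset V} {τ : V → Bool} {x : V}

lemma mu_nonneg (hW : ∀ σ, 0 < W σ) (σ : V → Bool) : 0 ≤ mu W S τ σ := by
  unfold mu; split_ifs
  · exact (hW σ).le
  · rfl

lemma Z_pos (hW : ∀ σ, 0 < W σ) : 0 < Z W S τ 1 :=
  sum_pos' (fun σ _ => by simpa using mu_nonneg hW σ) ⟨τ, mem_univ _, by simpa [mu] using hW τ⟩

lemma Z_split (hx : x ∉ S) (f : (V → Bool) → ℝ) :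
    Z W S τ f = Z W (insert x S) (update τ x false) f + Z W (insert x S) (update τ x true) f := by
  unfold Z
  rw [← sum_add_distrib]
  refine sum_congr rfl fun σ _ => ?_
  have : ∀ s, (∀ v ∈ insert x S, σ v = update τ x s v) ↔ σ x = s ∧ ∀ v ∈ S, σ v = τ v := by
    intro s
    rw [forall_mem_insert, update_self]
    exact and_congr_right fun _ => forall₂_congr fun v hv => by
      rw [update_of_ne (ne_of_mem_of_not_mem hv hx)]
  simp only [mu, this]
  cases σ x <;> simp

lemma Z_pin {y : V} (hy : y ∈ S) (f : (V → Bool) → ℝ) :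
    Z W S τ (fun σ => X σ y * f σ) = X τ y * Z W S τ f := by
  unfold Z
  rw [mul_sum]
  refine sum_congr rfl fun σ _ => ?_
  unfold mu
  split_ifs with h
  · simp only [X, h y hy]; ring
  · simp

lemma q_pin (hW : ∀ σ, 0 < W σ) {y : V} (hy : y ∈ S) : q W S τ y = X τ y := by
  have := Z_pin (W := W) (τ := τ) hy 1
  simp only [Pi.one_apply, mul_one] at this
  rw [q, Ex, this, mul_div_assoc, div_self (Z_pos hW).ne', mul_one]

lemma cov_symm (u v : V) : cov W S τ u v = cov W S τ v u := by
  simp only [cov, mul_comm]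

lemma cov_pin (hW : ∀ σ, 0 < W σ) {y : V} (hy : y ∈ S) (v : V) : cov W S τ y v = 0 := by
  rw [cov, q_pin hW hy, Ex, Z_pin hy, mul_div_assoc]
  exact sub_self _

lemma q_eq (hx : x ∉ S) : q W S τ x = Z W (insert x S) (update τ x true) 1 /
    (Z W (insert x S) (update τ x false) 1 + Z W (insert x S) (update τ x true) 1) := by
  have h := fun s => Z_pin (W := W) (τ := update τ x s) (mem_insert_self x S) 1
  simp only [Pi.one_apply, mul_one] at h
  rw [q, Ex, Z_split hx, Z_split hx 1, h, h]
  simp [X]

lemma Ex_split (hW : ∀ σ, 0 < W σ) (hx : x ∉ S) (f : (V → Bool) → ℝ) :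
    Ex W S τ f = (1 - q W S τ x) * Ex W (insert x S) (update τ x false) f
      + q W S τ x * Ex W (insert x S) (update τ x true) f := by
  have h0 := Z_pos (S := insert x S) (τ := update τ x false) hW
  have h1 := Z_pos (S := insert x S) (τ := update τ x true) hW
  rw [q_eq hx, Ex, Ex, Ex, Z_split hx, Z_split hx 1]
  field_simp
  ring

lemma log_split (hW : ∀ σ, 0 < W σ) (hx : x ∉ S) :
    log (Z W S τ 1) = binEntropy (q W S τ x)
      + (1 - q W S τ x) * log (Z W (insert x S) (update τ x false) 1)
      + q W S τ x * log (Z W (insert x S) (update τ x true) 1) := by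
  have h0 := Z_pos (S := insert x S) (τ := update τ x false) hW
  have h1 := Z_pos (S := insert x S) (τ := update τ x true) hW
  rw [q_eq hx, Z_split hx 1]
  generalize Z W (insert x S) (update τ x false) 1 = a at *
  generalize Z W (insert x S) (update τ x true) 1 = b at *
  have : 1 - b / (a + b) = a / (a + b) := by field_simp; ring
  rw [binEntropy, this, log_inv, log_inv, log_div h0.ne' (by positivity),
    log_div h1.ne' (by positivity)]
  field_simp
  ring

lemma q_mem (hW : ∀ σ, 0 < W σ) (v : V) : q W S τ v ∈ Set.Icc (0 : ℝ) 1 := by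
  refine ⟨div_nonneg (sum_nonneg fun σ _ => mul_nonneg (mu_nonneg hW σ) (X_mem σ v).1)
    (Z_pos hW).le, (div_le_one (Z_pos hW)).2 (sum_le_sum fun σ _ => ?_)⟩
  exact mul_le_mul_of_nonneg_left (X_mem σ v).2 (mu_nonneg hW σ)

lemma cov_nonneg (hW : ∀ σ, 0 < W σ) (hL : ∀ a b, W a * W b ≤ W (a ⊓ b) * W (a ⊔ b)) (u v : V) :
    0 ≤ cov W S τ u v := by
  have := fkg (μ := mu W S τ) (f := fun σ => X σ u) (g := fun σ => X σ v) (mu_nonneg hW)
    (fun σ => (X_mem σ u).1) (fun σ => (X_mem σ v).1) (X_mono u) (X_mono v) fun a b => by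
      by_cases ha : ∀ v ∈ S, a v = τ v
      · by_cases hb : ∀ v ∈ S, b v = τ v
        · simp only [mu]
          rw [if_pos ha, if_pos hb, if_pos fun v hv => by simp [ha v hv, hb v hv],
            if_pos fun v hv => by simp [ha v hv, hb v hv]]
          exact hL a b
        · rw [mu.eq_1 W S τ b, if_neg hb, mul_zero]
          exact mul_nonneg (mu_nonneg hW _) (mu_nonneg hW _)
      · rw [mu.eq_1 W S τ a, if_neg ha, zero_mul]
        exact mul_nonneg (mu_nonneg hW _) (mu_nonneg hW _)
  have h := Z_pos (S := S) (τ := τ) hW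
  have e : ∑ a, mu W S τ a = Z W S τ 1 := by simp [Z]
  rw [e] at this
  rw [cov, q, q, Ex, Ex, Ex, sub_nonneg, div_mul_div_comm, div_le_div_iff₀ (by positivity) h]
  unfold Z at *
  nlinarith

lemma q_split (hW : ∀ σ, 0 < W σ) (hx : x ∉ S) (v : V) :
    q W S τ v = (1 - q W S τ x) * q W (insert x S) (update τ x false) v
      + q W S τ x * q W (insert x S) (update τ x true) v := Ex_split hW hx _

lemma cov_split (hW : ∀ σ, 0 < W σ) (hx : x ∉ S) (u v : V) :
    cov W S τ u v = (1 - q W S τ x) * cov W (insert x S) (update τ x false) u v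
      + q W S τ x * cov W (insert x S) (update τ x true) u v
      + q W S τ x * (1 - q W S τ x) *
        (q W (insert x S) (update τ x true) u - q W (insert x S) (update τ x false) u) *
        (q W (insert x S) (update τ x true) v - q W (insert x S) (update τ x false) v) := by
  rw [cov, Ex_split hW hx, q_split hW hx u, q_split hW hx v, cov, cov]
  ring

lemma cov_self (hW : ∀ σ, 0 < W σ) (hx : x ∉ S) (v : V) :
    cov W S τ x v = q W S τ x * (1 - q W S τ x) *
        (q W (insert x S) (update τ x true) v - q W (insert x S) (update τ x false) v) := by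
  rw [cov_split hW hx, cov_pin hW (mem_insert_self _ _), cov_pin hW (mem_insert_self _ _),
    q_pin hW (mem_insert_self _ _), q_pin hW (mem_insert_self _ _)]
  simp [X]

lemma q_pos (hW : ∀ σ, 0 < W σ) (hx : x ∉ S) : 0 < q W S τ x * (1 - q W S τ x) := by
  have h0 := Z_pos (S := insert x S) (τ := update τ x false) hW
  have h1 := Z_pos (S := insert x S) (τ := update τ x true) hW
  rw [q_eq hx, one_sub_div (by positivity), add_sub_cancel_right]
  positivity

lemma q_mono (hW : ∀ σ, 0 < W σ) (hL : ∀ a b, W a * W b ≤ W (a ⊓ b) * W (a ⊔ b)) (hx : x ∉ S)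
    (v : V) : q W (insert x S) (update τ x false) v ≤ q W (insert x S) (update τ x true) v := by
  have := cov_nonneg (S := S) (τ := τ) hW hL x v
  rw [cov_self hW hx] at this
  exact sub_nonneg.1 (nonneg_of_mul_nonneg_right this (q_pos hW hx))

lemma cov_super (hW : ∀ σ, 0 < W σ) (hL : ∀ a b, W a * W b ≤ W (a ⊓ b) * W (a ⊔ b)) (hx : x ∉ S)
    (u v : V) : (1 - q W S τ x) * cov W (insert x S) (update τ x false) u v
      + q W S τ x * cov W (insert x S) (update τ x true) u v ≤ cov W S τ u v := by
  rw [cov_split hW hx u v]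
  exact le_add_of_nonneg_right (mul_nonneg (mul_nonneg (q_pos hW hx).le
    (sub_nonneg.2 (q_mono hW hL hx u))) (sub_nonneg.2 (q_mono hW hL hx v)))

lemma var_ge {M : ℝ} (hW : ∀ σ, 0 < W σ) (hx : x ∉ S)
    (h : ∀ σ s s', W (update σ x s) ≤ M * W (update σ x s')) :
    1 / (1 + M) ^ 2 ≤ q W S τ x * (1 - q W S τ x) := by
  have key : ∀ s, Z W (insert x S) (update τ x s) 1 ≤ M * Z W (insert x S) (update τ x !s) 1 := by
    intro s
    have hi : Involutive fun σ : V → Bool => update σ x (!σ x) := fun σ => by simp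
    rw [Z, Z, mul_sum, ← Equiv.sum_comp hi.toPerm]
    refine sum_le_sum fun σ _ => ?_
    have : (∀ v ∈ insert x S, update σ x (!σ x) v = update τ x s v) ↔
        ∀ v ∈ insert x S, σ v = update τ x (!s) v := by
      rw [forall_mem_insert, forall_mem_insert]
      refine and_congr (by simp only [update_self]; cases s <;> simp) (forall₂_congr fun v hv => ?_)
      simp only [update_of_ne (ne_of_mem_of_not_mem hv hx)]
    simp only [Involutive.coe_toPerm, mu, this, Pi.one_apply, mul_one]
    split_ifs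
    · simpa using h σ (!σ x) (σ x)
    · simp
  have h0 := Z_pos (S := insert x S) (τ := update τ x false) hW
  have h1 := Z_pos (S := insert x S) (τ := update τ x true) hW
  have k0 := key false
  have k1 := key true
  simp only [Bool.not_false, Bool.not_true] at k0 k1
  rw [q_eq hx, one_sub_div (by positivity), add_sub_cancel_right]
  generalize Z W (insert x S) (update τ x false) 1 = a at *
  generalize Z W (insert x S) (update τ x true) 1 = b at *
  have hM : 0 < M := by nlinarith
  rw [div_mul_div_comm, div_le_div_iff₀ (by positivity) (by positivity)]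
  nlinarith [mul_le_mul (by linarith : a + b ≤ (1 + M) * a) (by linarith : a + b ≤ (1 + M) * b)
    (by positivity) (by positivity)]

lemma cov_zero (hW : ∀ σ, 0 < W σ) (A : V → Prop) [DecidablePred A] {v : V} (hx : A x) (hv : ¬ A v)
    (h : ∀ σ σ' : V → Bool, (∀ y ∈ S, σ y = σ' y) → W σ * W σ' =
      W (fun y => if A y then σ y else σ' y) * W fun y => if A y then σ' y else σ y) :
    cov W S τ x v = 0 := by
  have h0 := Z_pos (S := S) (τ := τ) hW
  rw [cov, q, q, Ex, Ex, Ex, sub_eq_zero, div_mul_div_comm, div_eq_div_iff h0.ne' (by positivity),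
    ← mul_assoc]
  congr 1
  let Φ : (V → Bool) × (V → Bool) → (V → Bool) × (V → Bool) := fun p =>
    (fun y => if A y then p.1 y else p.2 y, fun y => if A y then p.2 y else p.1 y)
  have hi : Involutive Φ := fun p => by
    refine Prod.ext (funext fun y => ?_) (funext fun y => ?_) <;> by_cases hy : A y <;> simp [Φ, hy]
  simp only [Z, sum_mul_sum, ← Fintype.sum_prod_type']
  rw [← Equiv.sum_comp hi.toPerm]
  refine sum_congr rfl fun p _ => ?_
  have e : ((∀ y ∈ S, (Φ p).1 y = τ y) ∧ ∀ y ∈ S, (Φ p).2 y = τ y) ↔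
      (∀ y ∈ S, p.1 y = τ y) ∧ ∀ y ∈ S, p.2 y = τ y := by
    simp only [← forall_and, ← imp_and]
    refine forall₂_congr fun y _ => ?_
    by_cases hy : A y <;> simp [Φ, hy, and_comm]
  have e2 : mu W S τ (Φ p).1 * mu W S τ (Φ p).2 = mu W S τ p.1 * mu W S τ p.2 := by
    simp only [mu, ite_zero_mul_ite_zero, e]
    split_ifs with k
    · exact (h _ _ fun y hy => (k.1 y hy).trans (k.2 y hy).symm).symm
    · rfl
  have e3 : X (Φ p).1 x = X p.1 x := by simp [X, Φ, hx]
  have e4 : X (Φ p).1 v = X p.2 v := by simp [X, Φ, hv]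
  simp only [Involutive.coe_toPerm, Pi.one_apply, e3, e4]
  linear_combination X p.1 x * X p.2 v * e2

lemma cov_sep (hW : ∀ σ, 0 < W σ) (hL : ∀ a b, W a * W b ≤ W (a ⊓ b) * W (a ⊔ b))
    (A : V → Prop) [DecidablePred A] {v : V} (hx : A x) (hv : ¬ A v) (Y : Finset V)
    (h : ∀ σ σ' : V → Bool, (∀ y ∈ Y, σ y = σ' y) → W σ * W σ' =
      W (fun y => if A y then σ y else σ' y) * W fun y => if A y then σ' y else σ y) :
    cov W S τ v x ≤ ∑ y ∈ Y, cov W S τ v y := by
  suffices ∀ (T : Finset V) (S : Finset V) (τ : V → Bool), Y ⊆ S ∪ T →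
      cov W S τ v x ≤ ∑ y ∈ T, cov W S τ v y from this Y S τ subset_union_right
  intro T
  induction T using Finset.induction_on with
  | empty =>
    intro S τ hY
    rw [cov_symm, cov_zero hW A hx hv fun σ σ' k => h σ σ' fun y hy => k y (by simpa using hY hy)]
    simp
  | insert y T hy ih =>
    intro S τ hY
    rw [sum_insert hy]
    by_cases hS : y ∈ S
    · refine (ih S τ fun z hz => ?_).trans (le_add_of_nonneg_left (cov_nonneg hW hL _ _))
      have := hY hz
      simp only [mem_union, mem_insert] at this ⊢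
      rcases this with h | rfl | h <;> simp [*]
    · have hY' : Y ⊆ insert y S ∪ T := by rwa [insert_union, ← union_insert]
      have p0 := q_mem (S := S) (τ := τ) hW y
      have k0 := mul_le_mul_of_nonneg_left (ih _ (update τ y false) hY') (sub_nonneg.2 p0.2)
      have k1 := mul_le_mul_of_nonneg_left (ih _ (update τ y true) hY') p0.1
      have k2 := sum_le_sum (s := T) fun z _ => cov_super (τ := τ) hW hL hS v z
      rw [sum_add_distrib, ← mul_sum, ← mul_sum] at k2
      have k3 := cov_nonneg (S := S) (τ := τ) hW hL y v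
      rw [cov_split hW hS v x, cov_symm v y, ← cov_self hW hS]
      have a0 := q_mem (S := insert y S) (τ := update τ y false) hW x
      have a1 := q_mem (S := insert y S) (τ := update τ y true) hW x
      nlinarith [mul_le_mul_of_nonneg_left (by linarith [a0.1, a1.2] :
        q W (insert y S) (update τ y true) x - q W (insert y S) (update τ y false) x ≤ 1) k3]

end Pool.Agent.H.MP_a763a9_pr
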