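import Mathlib
import Pool.Agent.H.MP_a763a9_pr.B

open Real Finset Function

namespace Pool.Agent.H.MP_a763a9_pr

variable {V : Type} [Fintype V] [DecidableEq V]

noncomputable def w (J : ℝ) (E : Finset (V × V)) (b : V → ℝ) (σ : V → Bool) : ℝ :=
  exp (J * ∑ e ∈ E, X σ e.1 * X σ e.2 + ∑ v, b v * X σ v)

noncomputable def F (J : ℝ) (E : Finset (V × V)) (b : V → ℝ) (r : V → ℝ) : ℝ :=
  ∑ v, (binEntropy (r v) + b v * r v) + ∑ e ∈ E, I J (r e.1) (r e.2)

variable {J : ℝ} {E : Finset (V × V)} {b : V → ℝ}

omit [DecidableEq V] in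
lemma w_pos (σ : V → Bool) : 0 < w J E b σ := exp_pos _

omit [DecidableEq V] in
lemma w_lsm (hJ : 0 ≤ J) (σ σ' : V → Bool) :
    w J E b σ * w J E b σ' ≤ w J E b (σ ⊓ σ') * w J E b (σ ⊔ σ') := by
  simp only [w, ← exp_add, exp_le_exp]
  have h1 : ∑ v, b v * X σ v + ∑ v, b v * X σ' v = ∑ v, b v * X (σ ⊓ σ') v + ∑ v, b v * X (σ ⊔ σ') v := by
    simp only [← sum_add_distrib]
    refine sum_congr rfl fun v _ => ?_
    cases h1 : σ v <;> cases h2 : σ' v <;> simp [X, h1, h2]
  have h2 : ∑ e ∈ E, X σ e.1 * X σ e.2 + ∑ e ∈ E, X σ' e.1 * X σ' e.2 ≤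
      ∑ e ∈ E, X (σ ⊓ σ') e.1 * X (σ ⊓ σ') e.2 + ∑ e ∈ E, X (σ ⊔ σ') e.1 * X (σ ⊔ σ') e.2 := by
    simp only [← sum_add_distrib]
    refine sum_le_sum fun e _ => ?_
    cases h1 : σ e.1 <;> cases h2 : σ' e.1 <;> cases h3 : σ e.2 <;> cases h4 : σ' e.2 <;>
      simp [X, h1, h2, h3, h4]
  nlinarith [mul_le_mul_of_nonneg_left h2 hJ]

omit [DecidableEq V] in
lemma w_swap (A : V → Prop) [DecidablePred A] (σ σ' : V → Bool)
    (h : ∀ e ∈ E, (A e.1 ↔ A e.2) ∨ σ e.1 = σ' e.1 ∨ σ e.2 = σ' e.2) :
    w J E b σ * w J E b σ' =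
      w J E b (fun y => if A y then σ y else σ' y) * w J E b fun y => if A y then σ' y else σ y := by
  simp only [w, ← exp_add, exp_eq_exp]
  have h1 : ∑ v, b v * X σ v + ∑ v, b v * X σ' v = ∑ v, b v * X (fun y => if A y then σ y else σ' y) v
      + ∑ v, b v * X (fun y => if A y then σ' y else σ y) v := by
    simp only [← sum_add_distrib]
    refine sum_congr rfl fun v _ => ?_
    by_cases hv : A v <;> simp [X, hv, add_comm]
  have h2 : ∑ e ∈ E, X σ e.1 * X σ e.2 + ∑ e ∈ E, X σ' e.1 * X σ' e.2 =
      ∑ e ∈ E, X (fun y => if A y then σ y else σ' y) e.1 * X (fun y => if A y then σ y else σ' y) e.2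
      + ∑ e ∈ E, X (fun y => if A y then σ' y else σ y) e.1 *
        X (fun y => if A y then σ' y else σ y) e.2 := by
    simp only [← sum_add_distrib]
    refine sum_congr rfl fun e he => ?_
    have := h e he
    by_cases h1 : A e.1 <;> by_cases h2 : A e.2 <;>
      simp only [X, h1, h2, if_true, if_false, iff_true, iff_false, not_true, false_or] at this ⊢
    · rcases this with h | h <;> rw [h, add_comm]
    · rcases this with h | h <;> rw [h, add_comm]
    · exact add_comm _ _
  linear_combination J * h2 + h1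

lemma w_flip (hJ : 0 ≤ J) {x : V} {Δ : ℕ} (hd : #{e ∈ E | e.1 = x ∨ e.2 = x} ≤ Δ) {M : ℝ}
    (hb : |b x| ≤ M) (σ : V → Bool) (s s' : Bool) :
    w J E b (update σ x s) ≤ exp (J * Δ + M) * w J E b (update σ x s') := by
  simp only [w, ← exp_add, exp_le_exp]
  have h0 : ∀ v, v ≠ x → X (update σ x s) v = X (update σ x s') v := fun v hv => by simp [X, hv]
  have h1 : ∑ v, (b v * X (update σ x s) v - b v * X (update σ x s') v) ≤ M := by
    rw [sum_eq_single x (fun v _ hv => by rw [h0 v hv, sub_self]) (by simp), ← mul_sub]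
    refine (le_abs_self _).trans ?_
    rw [abs_mul]
    refine (mul_le_of_le_one_right (abs_nonneg _) ?_).trans hb
    have := X_mem (update σ x s) x
    have := X_mem (update σ x s') x
    rw [abs_le]; constructor <;> linarith [this.1, this.2, (X_mem (update σ x s) x).1,
      (X_mem (update σ x s) x).2]
  have h2 : ∑ e ∈ E, (X (update σ x s) e.1 * X (update σ x s) e.2
      - X (update σ x s') e.1 * X (update σ x s') e.2) ≤ Δ := by
    refine le_trans (sum_le_sum (g := fun e => if e.1 = x ∨ e.2 = x then (1 : ℝ) else 0)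
      fun e _ => ?_) ?_
    · split_ifs with k
      · nlinarith [(X_mem (update σ x s) e.1).1, (X_mem (update σ x s) e.1).2,
          (X_mem (update σ x s) e.2).1, (X_mem (update σ x s) e.2).2,
          mul_nonneg (X_mem (update σ x s') e.1).1 (X_mem (update σ x s') e.2).1]
      · rw [h0 _ fun h => k (.inl h), h0 _ fun h => k (.inr h), sub_self]
    · rw [sum_boole]; exact_mod_cast hd
  rw [sum_sub_distrib] at h1 h2
  nlinarith [mul_le_mul_of_nonneg_left h2 hJ]

theorem lower (hJ : 0 ≤ J) (hE : ∀ e ∈ E, e.1 ≠ e.2) {r : V → ℝ} (hr : ∀ v, r v ∈ Set.Icc (0 : ℝ) 1)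
    (b : V → ℝ) : F J E b r ≤ log (∑ σ, w J E b σ) := by
  induction E using Finset.induction_on generalizing b with
  | empty =>
    have : ∑ σ : V → Bool, w J ∅ b σ = ∏ v, (1 + exp (b v)) := by
      have := prod_univ_sum (fun _ : V => (univ : Finset Bool))
        fun v s => exp (b v * if s then 1 else 0)
      simp only [Fintype.piFinset_univ] at this
      simp only [w, sum_empty, mul_zero, zero_add, exp_sum, X, ← this]
      simp [add_comm]
    rw [this, log_prod fun v _ => by positivity, F, sum_empty, add_zero]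
    exact sum_le_sum fun v _ => ell_ge (hr v).1 (hr v).2 _
  | insert e E he ih =>
    obtain ⟨u, v⟩ := e
    have huv : u ≠ v := hE _ (mem_insert_self _ _)
    have pos : ∀ (f : (V → Bool) → ℝ) (σ₀ : V → Bool), (∀ σ, 0 ≤ f σ) → f σ₀ = 1 →
        0 < ∑ σ, w J E b σ * f σ := fun f σ₀ h1 h2 =>
      sum_pos' (fun σ _ => mul_nonneg (w_pos σ).le (h1 σ)) ⟨σ₀, mem_univ _, by
        rw [h2, mul_one]; exact w_pos _⟩
    have x0 := fun σ (y : V) => (X_mem σ y).1
    have x1 := fun σ (y : V) => sub_nonneg.2 (X_mem σ y).2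
    have key := four (J := J) (Γ := F J E b r) hJ (hr u) (hr v)
      (r₃ := ∑ σ, w J E b σ * (X σ u * X σ v))
      (pos (fun σ => (1 - X σ u) * (1 - X σ v)) (fun _ => false)
        (fun σ => mul_nonneg (x1 _ _) (x1 _ _)) (by simp [X]))
      (pos (fun σ => X σ u * (1 - X σ v)) (fun y => y = u)
        (fun σ => mul_nonneg (x0 _ _) (x1 _ _)) (by simp [X, huv.symm]))
      (pos (fun σ => (1 - X σ u) * X σ v) (fun y => y = v)
        (fun σ => mul_nonneg (x1 _ _) (x0 _ _)) (by simp [X, huv])) ?_ ?_
    · rw [F, sum_insert he]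
      refine le_trans (le_of_eq (by rw [F]; ring)) (key.trans_eq ?_)
      congr 1
      simp only [sum_mul, ← sum_add_distrib]
      refine sum_congr rfl fun σ _ => ?_
      rw [w.eq_1 J (insert _ _), sum_insert he, mul_add J, add_assoc (J * _), exp_add (J * _), w]
      generalize exp (J * ∑ e ∈ E, X σ e.1 * X σ e.2 + ∑ v, b v * X σ v) = c
      simp only [X]
      cases σ u <;> cases σ v <;> simp [mul_comm]
    · have := fkg (μ := w J E b) (f := fun σ => X σ u) (g := fun σ => X σ v) (fun σ => (w_pos σ).le)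
        (fun σ => x0 σ u) (fun σ => x0 σ v) (X_mono u) (X_mono v) (w_lsm hJ)
      simp only [mul_sub, sub_mul, mul_one, one_mul, sum_sub_distrib]
      linarith
    · intro s t
      have := ih (fun e he => hE e (mem_insert_of_mem he)) (b + Pi.single u s + Pi.single v t)
      have e1 : ∀ f : V → ℝ, ∑ y, (b + Pi.single u s + Pi.single v t : V → ℝ) y * f y
          = ∑ y, b y * f y + s * f u + t * f v := by
        intro f
        simp [add_mul, sum_add_distrib, Pi.single_apply]
      refine le_trans (le_of_eq ?_) (this.trans_eq ?_)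
      · simp only [F, sum_add_distrib, e1]; ring
      · congr 1
        simp only [sum_mul, ← sum_add_distrib]
        refine sum_congr rfl fun σ _ => ?_
        rw [w, e1, add_assoc (∑ y, _), ← add_assoc (J * _), exp_add, w]
        generalize exp (J * ∑ e ∈ E, X σ e.1 * X σ e.2 + ∑ v, b v * X σ v) = c
        simp only [X]
        cases σ u <;> cases σ v <;> simp

def child (lev : V → ℕ) (e : V × V) : V := if lev e.1 ≤ lev e.2 then e.2 else e.1

structure Lev (E : Finset (V × V)) (S : Finset V) (R : ℕ) (x : V) (lev : V → ℕ) : Prop where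
  h0 : ∀ v, lev v = 0 ↔ v = x
  h1 : ∀ e ∈ E, lev e.1 ≤ lev e.2 + 1 ∧ lev e.2 ≤ lev e.1 + 1
  h2 : ∀ v ∉ S, lev v ≤ R → #{e ∈ E | child lev e = v} ≤ 1

lemma far (hJ : 0 ≤ J) {S₀ S : Finset V} {R : ℕ} {x : V} {lev : V → ℕ} (h : Lev E S₀ R x lev)
    (τ : V → Bool) {v : V} (hv : R < lev v) :
    R * cov (w J E b) S τ v x ≤ ∑ y, cov (w J E b) S τ v y := by
  have h1 : ∀ r ∈ Icc 1 R, cov (w J E b) S τ v x ≤ ∑ y with lev y = r, cov (w J E b) S τ v y := by
    intro r hr
    rw [mem_Icc] at hr
    refine cov_sep w_pos (w_lsm hJ) (fun y => lev y < r) (by simp only [(h.h0 x).2 rfl]; omega)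
      (by omega) _ fun σ σ' k => w_swap _ _ _ fun e he => ?_
    have := h.h1 e he
    rcases eq_or_ne (lev e.1) r with h1 | h1
    · exact .inr (.inl (k _ (by simp [h1])))
    rcases eq_or_ne (lev e.2) r with h2 | h2
    · exact .inr (.inr (k _ (by simp [h2])))
    exact .inl (by omega)
  have h2 := sum_le_sum h1
  rw [sum_const, Nat.card_Icc, Nat.add_sub_cancel, nsmul_eq_mul, sum_fiberwise_eq_sum_filter] at h2
  exact h2.trans (sum_le_sum_of_subset_of_nonneg (filter_subset _ _)
    fun y _ _ => cov_nonneg w_pos (w_lsm hJ) _ _)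

noncomputable def pot (W : (V → Bool) → ℝ) (a : ℝ) (S : Finset V) (τ : V → Bool) (v : V) : ℝ :=
  min (binEntropy (q W S τ v)) (a * ∑ y, cov W S τ v y)

lemma pot_le (W : (V → Bool) → ℝ) (a : ℝ) (S : Finset V) (τ : V → Bool) (v : V) :
    pot W a S τ v ≤ binEntropy (q W S τ v) ∧ pot W a S τ v ≤ a * ∑ y, cov W S τ v y :=
  ⟨min_le_left _ _, min_le_right _ _⟩

theorem upper_aux (hJ : 0 ≤ J) (hE : ∀ e ∈ E, e.1 ≠ e.2) {S₀ : Finset V} {R Δ : ℕ} {M a : ℝ}
    (hl : ∀ x ∉ S₀, ∃ lev, Lev E S₀ R x lev) (hd : ∀ x ∉ S₀, #{e ∈ E | e.1 = x ∨ e.2 = x} ≤ Δ)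
    (hb : ∀ x ∉ S₀, |b x| ≤ M) (ha : 0 < a) (hR : (1 + exp (J * Δ + M)) ^ 4 ≤ a ^ 2 * R)
    (T S : Finset V) (τ : V → Bool) (hS : S₀ ⊆ S) (hT : ∀ v, v ∈ S ∪ T) :
    log (Z (w J E b) S τ 1) ≤ F J E b (q (w J E b) S τ) + Δ * ∑ v, pot (w J E b) a S τ v := by
  have hW : ∀ σ, 0 < w J E b σ := w_pos
  have hL := w_lsm (E := E) (b := b) hJ
  induction T using Finset.induction_on generalizing S τ with
  | empty =>
    have hv : ∀ v, v ∈ S := by simpa using hT
    have h1 : Z (w J E b) S τ 1 = w J E b τ := by
      rw [Z, sum_eq_single τ (fun σ _ h => ?_) (by simp)]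
      · simp [mu]
      · rw [mu, if_neg fun k => h (funext fun v => k v (hv v)), zero_mul]
    have h2 : 0 ≤ ∑ v, pot (w J E b) a S τ v := sum_nonneg fun v _ => le_min
      (binEntropy_nonneg (q_mem hW v).1 (q_mem hW v).2)
      (mul_nonneg ha.le (sum_nonneg fun y _ => cov_nonneg hW hL _ _))
    rw [h1, w, log_exp, F, add_comm, mul_sum]
    refine le_add_of_le_of_nonneg (add_le_add (sum_le_sum fun v _ => ?_) (sum_le_sum fun e _ => ?_))
      (by positivity)
    · rw [q_pin hW (hv v)]
      linarith [binEntropy_nonneg (X_mem τ v).1 (X_mem τ v).2]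
    · rw [q_pin hW (hv _), q_pin hW (hv _)]
      have := I_nonneg hJ (X_mem τ e.1) (X_mem τ e.2)
      have := I_one J
      simp only [X] at *
      split_ifs at * <;> simp [*]
  | insert x T hx ih =>
    by_cases hxS : x ∈ S
    · refine ih S τ hS fun v => ?_
      have := hT v
      simp only [mem_union, mem_insert] at this ⊢
      rcases this with h | rfl | h <;> simp [*]
    have hT' : ∀ v, v ∈ insert x S ∪ T := by rwa [insert_union, ← union_insert]
    have i0 := ih _ (update τ x false) (hS.trans (subset_insert _ _)) hT'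
    have i1 := ih _ (update τ x true) (hS.trans (subset_insert _ _)) hT'
    obtain ⟨lev, hlev⟩ := hl x fun h => hxS (hS h)
    have hfar := fun v => far (S := S) (b := b) (v := v) hJ hlev τ
    have var : ∀ v ∉ S, 1 / (1 + exp (J * Δ + M)) ^ 2 ≤ q (w J E b) S τ v * (1 - q (w J E b) S τ v) :=
      fun v hv => var_ge hW hv (w_flip hJ (hd v fun h => hv (hS h)) (hb v fun h => hv (hS h)))
    generalize w J E b = W at *
    have hp := q_mem (S := S) (τ := τ) hW x
    have hq := q_split (τ := τ) hW hxS
    have m0 := q_mem (S := insert x S) (τ := update τ x false) hW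
    have m1 := q_mem (S := insert x S) (τ := update τ x true) hW
    let i : V → ℝ := fun v => binEntropy (q W S τ v)
      - (1 - q W S τ x) * binEntropy (q W (insert x S) (update τ x false) v)
      - q W S τ x * binEntropy (q W (insert x S) (update τ x true) v)
    have i_nn : ∀ v, 0 ≤ i v := fun v => by
      have := info_nonneg hp (m0 v) (m1 v)
      rw [← hq] at this
      simp only [i]; linarith
    have i_S : ∀ v ∈ S, i v = 0 := fun v hv => by
      simp only [i, q_pin hW hv, q_pin hW (mem_insert_of_mem hv), X,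
        update_of_ne (ne_of_mem_of_not_mem hv hxS)]
      ring
    have i_x : i x = binEntropy (q W S τ x) := by
      simp [i, q_pin hW (mem_insert_self x S), X]
    have E1 : (1 - q W S τ x) * F J E b (q W (insert x S) (update τ x false))
        + q W S τ x * F J E b (q W (insert x S) (update τ x true))
        ≤ F J E b (q W S τ) - ∑ v, i v + ∑ e ∈ E, i (child lev e) := by
      simp only [F, mul_add, mul_sum]
      rw [add_add_add_comm, ← sum_add_distrib, ← sum_add_distrib, add_sub_right_comm,
        ← sum_sub_distrib, add_assoc, ← sum_add_distrib]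
      refine add_le_add (le_of_eq (sum_congr rfl fun v _ => ?_)) (sum_le_sum fun e _ => ?_)
      · simp only [i]
        linear_combination (-b v) * hq v
      · unfold child
        split_ifs
        · have := I_conc hJ hp (m0 e.1) (m0 e.2) (m1 e.1) (m1 e.2)
          rw [← hq, ← hq] at this
          simp only [i]; linarith
        · have := I_conc hJ hp (m0 e.2) (m0 e.1) (m1 e.2) (m1 e.1)
          rw [← hq, ← hq, I_symm J (q W S τ e.2), I_symm J (q W _ _ e.2), I_symm J (q W _ _ e.2)] at this
          simp only [i]; linarith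
    have E2 : ∑ e ∈ E, i (child lev e) ≤ ∑ v, ((i v - if v = x then i v else 0)
        + Δ * if R < lev v then i v else 0) := by
      rw [← sum_fiberwise' E (child lev) i]
      refine sum_le_sum fun v _ => ?_
      rw [sum_const, nsmul_eq_mul]
      have := i_nn v
      by_cases hv : v ∈ S
      · simp [i_S v hv]
      by_cases hvx : v = x
      · subst hvx
        rw [filter_eq_empty_iff.2 fun e he h => ?_]
        · simp [(hlev.h0 v).2 rfl]
        · have h1 := hE e he
          have h2 := (hlev.h0 v).2 rfl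
          unfold child at h
          split_ifs at h with k
          · exact h1 (((hlev.h0 _).1 (by rw [h] at k; omega)).trans h.symm)
          · rw [h] at k; omega
      rw [if_neg hvx]
      split_ifs with k
      · have : (#{e ∈ E | child lev e = v} : ℝ) ≤ Δ := by
          refine Nat.cast_le.2 (le_trans (card_le_card fun e he => ?_) (hd v fun h => hv (hS h)))
          simp only [mem_filter, child] at he ⊢
          split_ifs at he <;> simp [he]
        nlinarith
      · have : (#{e ∈ E | child lev e = v} : ℝ) ≤ 1 := by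
          exact_mod_cast hlev.h2 v (fun h => hv (hS h)) (not_lt.1 k)
        nlinarith
    have E4 : ∀ v, (1 - q W S τ x) * pot W a (insert x S) (update τ x false) v
        + q W S τ x * pot W a (insert x S) (update τ x true) v + (if R < lev v then i v else 0)
        ≤ pot W a S τ v := by
      intro v
      have p0 := sub_nonneg.2 hp.2
      have hi : (if R < lev v then i v else 0) ≤ i v := by split_ifs <;> simp [i_nn]
      rcases le_total (binEntropy (q W S τ v)) (a * ∑ y, cov W S τ v y) with k | k
      · rw [pot.eq_1 W a S, min_eq_left k]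
        have a0 := mul_le_mul_of_nonneg_left (pot_le W a (insert x S) (update τ x false) v).1 p0
        have a1 := mul_le_mul_of_nonneg_left (pot_le W a (insert x S) (update τ x true) v).1 hp.1
        simp only [i] at hi ⊢
        linarith
      rw [pot.eq_1 W a S, min_eq_right k]
      have a0 := mul_le_mul_of_nonneg_left (pot_le W a (insert x S) (update τ x false) v).2 p0
      have a1 := mul_le_mul_of_nonneg_left (pot_le W a (insert x S) (update τ x true) v).2 hp.1
      have c0 := cov_nonneg (S := S) (τ := τ) hW hL v x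
      have a2 : ∑ y, ((1 - q W S τ x) * cov W (insert x S) (update τ x false) v y
          + q W S τ x * cov W (insert x S) (update τ x true) v y)
          ≤ ∑ y, (cov W S τ v y - if y = x then cov W S τ v x else 0) := by
        refine sum_le_sum fun y _ => ?_
        split_ifs with h
        · rw [h, cov_symm v, cov_symm v, cov_pin hW (mem_insert_self _ _),
            cov_pin hW (mem_insert_self _ _)]
          simp
        · simpa using cov_super hW hL hxS v y
      rw [sum_add_distrib, ← mul_sum, ← mul_sum, sum_sub_distrib, sum_ite_eq', if_pos (mem_univ _)] at a2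
      have a3 : (if R < lev v then i v else 0) ≤ a * cov W S τ v x := by
        split_ifs with h
        swap
        · positivity
        by_cases hv : v ∈ S
        · rw [i_S v hv]; positivity
        have v1 := var v hv
        have v2 := var x hxS
        have v3 := q_pos (τ := τ) hW hv
        have v4 := q_pos (τ := τ) hW hxS
        have mv := q_mem (S := S) (τ := τ) hW v
        have b1 := info_le hp (m0 v) (m1 v) (hq v) (by nlinarith [mv.1, mv.2])
          (by nlinarith [mv.1, mv.2])
        have b2 := hfar v h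
        have b3 : a * (R * cov W S τ v x) ≤ 1 := (mul_le_mul_of_nonneg_left b2 ha.le).trans
          (k.trans (binEntropy_le_log_two.trans (by linarith [log_two_lt_d9])))
        refine b1.trans ?_
        rw [div_le_iff₀ v3]
        refine le_of_mul_le_mul_left ?_ v4
        have b4 : q W S τ x * (1 - q W S τ x) * (q W S τ x * (1 - q W S τ x) *
            (q W (insert x S) (update τ x true) v - q W (insert x S) (update τ x false) v) ^ 2)
            = cov W S τ v x ^ 2 := by rw [cov_symm, cov_self hW hxS]; ring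
        rw [b4]
        have hK : 0 < (1 + exp (J * Δ + M)) ^ 2 := by positivity
        rw [show 4 = 2 * 2 by rfl, pow_mul] at hR
        generalize (1 + exp (J * Δ + M)) ^ 2 = K at *
        generalize q W S τ x * (1 - q W S τ x) = A at *
        generalize q W S τ v * (1 - q W S τ v) = B at *
        generalize cov W S τ v x = c at *
        rw [div_le_iff₀ hK] at v1 v2
        have b5 : c * K ^ 2 ≤ a := by nlinarith [mul_le_mul_of_nonneg_left hR c0]
        have b6 : 1 ≤ A * B * K ^ 2 := by nlinarith [mul_le_mul v1 v2 zero_le_one (by positivity)]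
        nlinarith [mul_le_mul_of_nonneg_left b6 (sq_nonneg c),
          mul_le_mul_of_nonneg_left b5 (mul_nonneg c0 (mul_pos v4 v3).le)]
      nlinarith [mul_le_mul_of_nonneg_left a2 ha.le]
    have E5 := mul_le_mul_of_nonneg_left (sum_le_sum (s := univ) fun v _ => E4 v) (Nat.cast_nonneg Δ)
    simp only [sum_add_distrib, sum_sub_distrib, ← mul_sum, sum_ite_eq', mem_univ, if_true] at E2 E5
    rw [log_split hW hxS]
    nlinarith [mul_le_mul_of_nonneg_left i0 (sub_nonneg.2 hp.2), mul_le_mul_of_nonneg_left i1 hp.1]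

end Pool.Agent.H.MP_a763a9_pr
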