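import Mathlib
import Pool.Agent.H.MP_a763a9_pr.C

open Real Finset Function

namespace Pool.Agent.H.MP_a763a9_pr

variable {V : Type} [Fintype V] [DecidableEq V] {J : ℝ} {E : Finset (V × V)} {b : V → ℝ}

lemma pin_cost {W : (V → Bool) → ℝ} (hW : ∀ σ, 0 < W σ) (S : Finset V) :
    ∃ τ, log (∑ σ, W σ) ≤ #S + log (Z W S τ 1) := by
  induction S using Finset.induction_on with
  | empty => exact ⟨fun _ => true, by simp [Z, mu]⟩
  | insert x S hx ih =>
    obtain ⟨τ, h⟩ := ih
    rw [log_split hW hx] at h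
    have hp := q_mem (S := S) (τ := τ) hW x
    have h2 : binEntropy (q W S τ x) ≤ 1 := binEntropy_le_log_two.trans (by linarith [log_two_lt_d9])
    rw [card_insert_of_notMem hx]
    push_cast
    rcases le_total (log (Z W (insert x S) (update τ x false) 1))
      (log (Z W (insert x S) (update τ x true) 1)) with k | k
    · exact ⟨update τ x true, by nlinarith [hp.1, hp.2]⟩
    · exact ⟨update τ x false, by nlinarith [hp.1, hp.2]⟩

lemma Z_shift (S : Finset V) (τ : V → Bool) (t : ℝ) (f : (V → Bool) → ℝ) :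
    Z (w J E fun v => b v + t) S τ f = ∑ σ, mu (w J E b) S τ σ * f σ * exp (t * ∑ v, X σ v) := by
  refine sum_congr rfl fun σ _ => ?_
  simp only [mu]
  split_ifs
  · simp only [w, add_mul, sum_add_distrib, ← mul_sum, ← add_assoc, exp_add _ (t * _)]; ring
  · simp

lemma good_field (S : Finset V) (τ : V → Bool) {η : ℝ} (hη : 0 < η) : ∃ t, 0 ≤ t ∧ t ≤ η ∧
    ∑ v, ∑ y, cov (w J E fun v => b v + t) S τ v y ≤ Fintype.card V / η := by
  have hd : ∀ (f : (V → Bool) → ℝ) t, HasDerivAt (fun t => Z (w J E fun v => b v + t) S τ f)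
      (Z (w J E fun v => b v + t) S τ fun σ => (∑ v, X σ v) * f σ) t := by
    intro f t
    simp only [Z_shift]
    refine HasDerivAt.fun_sum fun σ _ => ?_
    refine (((hasDerivAt_mul_const (∑ v, X σ v)).exp).const_mul
      (mu (w J E b) S τ σ * f σ)).congr_deriv ?_
    ring
  have hs : ∀ t (f : V → (V → Bool) → ℝ), Z (w J E fun v => b v + t) S τ (fun σ => ∑ v, f v σ)
      = ∑ v, Z (w J E fun v => b v + t) S τ (f v) := by
    intro t f
    simp only [Z, mul_sum]
    exact sum_comm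
  have hg : ∀ t, HasDerivAt (fun t => ∑ v, q (w J E fun v => b v + t) S τ v)
      (∑ v, ∑ y, cov (w J E fun v => b v + t) S τ v y) t := by
    intro t
    refine HasDerivAt.fun_sum fun v _ => ?_
    have h0 := Z_pos (W := w J E fun v => b v + t) (S := S) (τ := τ) w_pos
    refine ((hd (fun σ => X σ v) t).div (hd 1 t) h0.ne').congr_deriv (Eq.symm ?_)
    simp only [sum_mul, hs, cov, q, Ex, Pi.one_apply, mul_one, mul_sum, ← sum_sub_distrib, sum_div]
    refine sum_congr rfl fun y _ => ?_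
    simp only [mul_comm (X _ y)]
    field_simp
  obtain ⟨t, ht, h⟩ := exists_hasDerivAt_eq_slope _ _ hη
    (fun t _ => (hg t).continuousAt.continuousWithinAt) fun t _ => hg t
  refine ⟨t, ht.1.le, ht.2.le, ?_⟩
  rw [h, sub_zero]
  gcongr
  have h1 := sum_le_sum (s := univ) fun v _ => (q_mem (W := w J E fun v => b v + η) (S := S) (τ := τ)
    w_pos v).2
  have h2 := sum_nonneg (s := univ) fun v _ => (q_mem (W := w J E fun v => b v + 0) (S := S) (τ := τ)
    w_pos v).1
  simp only [sum_const, card_univ, nsmul_eq_mul, mul_one] at h1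
  linarith

theorem upper (hJ : 0 ≤ J) (hE : ∀ e ∈ E, e.1 ≠ e.2) {S : Finset V} {R Δ : ℕ} {M a η : ℝ}
    (hl : ∀ x ∉ S, ∃ lev, Lev E S R x lev) (hd : ∀ x ∉ S, #{e ∈ E | e.1 = x ∨ e.2 = x} ≤ Δ)
    (hb : ∀ x ∉ S, |b x| ≤ M) (ha : 0 < a) (hη : 0 < η)
    (hR : (1 + exp (J * Δ + (M + η))) ^ 4 ≤ a ^ 2 * R) :
    ∃ r : V → ℝ, (∀ v, r v ∈ Set.Icc (0 : ℝ) 1) ∧
      log (∑ σ, w J E b σ) ≤ F J E b r + #S + (η + Δ * a / η) * Fintype.card V := by
  obtain ⟨τ, h1⟩ := pin_cost (W := w J E b) w_pos S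
  obtain ⟨t, t0, t1, h2⟩ := good_field (J := J) (E := E) (b := b) S τ hη
  have h3 := upper_aux (b := fun v => b v + t) hJ hE hl hd (fun x hx => (abs_add_le _ _).trans
    (add_le_add (hb x hx) (by rwa [abs_of_nonneg t0]))) ha hR univ S τ Subset.rfl (by simp)
  have hm := q_mem (W := w J E fun v => b v + t) (S := S) (τ := τ) w_pos
  refine ⟨_, hm, ?_⟩
  have h4 : log (Z (w J E b) S τ 1) ≤ log (Z (w J E fun v => b v + t) S τ 1) := by
    refine log_le_log (Z_pos w_pos) ?_
    rw [Z_shift]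
    refine sum_le_sum fun σ _ => le_mul_of_one_le_right (by simpa using mu_nonneg w_pos σ) ?_
    exact one_le_exp (mul_nonneg t0 (sum_nonneg fun v _ => (X_mem σ v).1))
  have h5 := sum_le_sum (s := univ) fun v _ => (pot_le (w J E fun v => b v + t) a S τ v).2
  rw [← mul_sum] at h5
  have h6 := mul_le_mul_of_nonneg_left (h5.trans (mul_le_mul_of_nonneg_left h2 ha.le))
    (Nat.cast_nonneg Δ)
  generalize q (w J E fun v => b v + t) S τ = r at *
  have h7 : F J E (fun v => b v + t) r ≤ F J E b r + η * Fintype.card V := by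
    have := sum_le_sum (s := univ) (g := fun _ => η) fun v _ =>
      (mul_le_of_le_one_right t0 (hm v).2).trans t1
    simp only [F, add_mul, sum_add_distrib, sum_const, card_univ, nsmul_eq_mul] at this ⊢
    linarith
  have : Δ * a / η * Fintype.card V = Δ * (a * (Fintype.card V / η)) := by ring
  linarith

end Pool.Agent.H.MP_a763a9_pr
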