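import Mathlib
import Pool.Agent.H.MP_a763a9_pr.D

open Real Finset Function

namespace Pool.Agent.H.MP_a763a9_pr

section avg
variable {V α : Type} [Fintype V]

open Classical in
noncomputable def Av (c : V → α) (y : V → ℝ) (a : α) : ℝ := (∑ u with c u = a, y u) / #{u | c u = a}

lemma ce (c : V → α) (y : V → ℝ) (M : α → ℝ) :
    ∑ u, M (c u) * y u = ∑ u, M (c u) * Av c y (c u) := by
  classical
  rw [← sum_fiberwise_of_maps_to (t := univ.image c) (g := c) fun u _ => mem_image_of_mem c (mem_univ u),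
    ← sum_fiberwise_of_maps_to (t := univ.image c) (g := c) fun u _ => mem_image_of_mem c (mem_univ u)]
  refine sum_congr rfl fun a ha => ?_
  rw [sum_congr rfl (g := fun u => M a * y u) fun u hu => by rw [(mem_filter.1 hu).2],
    sum_congr (f := fun u => M (c u) * Av c y (c u)) rfl (g := fun _ => M a * Av c y a)
      fun u hu => by rw [(mem_filter.1 hu).2],
    ← mul_sum, sum_const, nsmul_eq_mul, Av]
  obtain ⟨u, -, rfl⟩ := mem_image.1 ha
  have : (0 : ℝ) < #{v | c v = c u} := by exact_mod_cast card_pos.2 ⟨u, by simp⟩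
  field_simp

lemma Av_mono (c : V → α) {y y' : V → ℝ} (h : ∀ u, y u ≤ y' u) (a : α) : Av c y a ≤ Av c y' a :=
  div_le_div_of_nonneg_right (sum_le_sum fun u _ => h u) (Nat.cast_nonneg _)

lemma Av_mem (c : V → α) {y : V → ℝ} (h : ∀ u, y u ∈ Set.Icc (0 : ℝ) 1) (a : α) :
    Av c y a ∈ Set.Icc (0 : ℝ) 1 :=
  ⟨div_nonneg (sum_nonneg fun u _ => (h u).1) (Nat.cast_nonneg _), div_le_one_of_le₀
    ((sum_le_sum fun u _ => (h u).2).trans (by simp)) (Nat.cast_nonneg _)⟩

end avg

def ty : ℕ → Type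
  | 0 => Unit
  | r + 1 => Multiset (ty r)

def pr : (r : ℕ) → ty (r + 1) → ty r
  | 0, _ => ()
  | r + 1, m => Multiset.map (pr r) m

variable {V : Type} [Fintype V]

open Classical in
noncomputable def N (G : SimpleGraph V) (u : V) : Finset V := {v | G.Adj u v}

noncomputable def col (G : SimpleGraph V) : (r : ℕ) → V → ty r
  | 0, _ => ()
  | r + 1, u => (N G u).val.map (col G r)

lemma pr_col (G : SimpleGraph V) (r : ℕ) (u : V) : pr r (col G (r + 1) u) = col G r u := by
  induction r generalizing u with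
  | zero => rfl
  | succ r ih =>
    show Multiset.map (pr r) (Multiset.map _ _) = Multiset.map _ _
    rw [Multiset.map_map]
    exact Multiset.map_congr rfl fun v _ => ih v

lemma proj {r R : ℕ} (h : r ≤ R) : ∃ ρ : ty R → ty r, ∀ {V : Type} [Fintype V] (G : SimpleGraph V) u,
    ρ (col G R u) = col G r u := by
  induction R, h using Nat.le_induction with
  | base => exact ⟨id, fun _ _ => rfl⟩
  | succ R _ ih =>
    obtain ⟨ρ, h⟩ := ih
    exact ⟨ρ ∘ pr R, fun G u => by rw [comp_apply, pr_col, h]⟩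

lemma sum_N (G : SimpleGraph V) (f : V → V → ℝ) :
    ∑ u, ∑ v ∈ N G u, f u v = ∑ u, ∑ v ∈ N G u, f v u :=
  sum_comm' fun u v => by simp [N, G.adj_comm]

variable (G : SimpleGraph V)

lemma energy (r : ℕ) (y : V → ℝ) :
    ∑ u, (Av (col G (r + 1)) y (col G (r + 1) u) - Av (col G r) y (col G r u)) ^ 2 =
      ∑ u, Av (col G (r + 1)) y (col G (r + 1) u) ^ 2 - ∑ u, Av (col G r) y (col G r u) ^ 2 := by
  have h1 := ce (col G (r + 1)) y fun c => Av (col G r) y (pr r c)
  have h2 := ce (col G r) y (Av (col G r) y)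
  simp only [pr_col] at h1
  simp only [sub_sq, sum_add_distrib, sum_sub_distrib, mul_assoc, ← mul_sum,
    mul_comm (Av (col G (r + 1)) y _), ← h1, h2, ← sq]
  ring

lemma pigeon {k R : ℕ} (hR : 0 < R) (y : ℕ → V → ℝ) (hy : ∀ s u, y s u ∈ Set.Icc (0 : ℝ) 1) {κ : ℝ}
    (hκ : 0 < κ) : ∃ r < R, ∀ s < k,
      ∑ u, |Av (col G (r + 2)) (y s) (col G (r + 2) u) - Av (col G (r + 1)) (y s) (col G (r + 1) u)|
        ≤ (κ + k / (R * κ)) * Fintype.card V := by
  let f : ℕ → ℝ := fun r => ∑ s ∈ range k, ∑ u, Av (col G (r + 1)) (y s) (col G (r + 1) u) ^ 2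
  have hR' : (0 : ℝ) < R := by exact_mod_cast hR
  obtain ⟨r, hr, h⟩ := exists_le_of_sum_le (s := range R) ⟨0, mem_range.2 hR⟩
    (f := fun r => f (r + 1) - f r) (g := fun _ => k * Fintype.card V / R) (by
      rw [sum_range_sub, sum_const, card_range, nsmul_eq_mul, mul_div_cancel₀ _ hR'.ne']
      refine (sub_le_self _ (by positivity)).trans ((sum_le_sum fun s _ => sum_le_sum fun u _ =>
        pow_le_one₀ (Av_mem _ (hy s) _).1 (Av_mem _ (hy s) _).2).trans (by simp)))
  refine ⟨r, mem_range.1 hr, fun s hs => ?_⟩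
  simp only [f] at h
  rw [← sum_sub_distrib] at h
  simp only [← energy] at h
  have h1 := (single_le_sum (fun s _ => sum_nonneg fun u _ => sq_nonneg _) (mem_range.2 hs)).trans h
  have h2 : ∀ d : ℝ, |d| ≤ κ + d ^ 2 / κ := fun d => by
    rw [← sub_le_iff_le_add', le_div_iff₀ hκ, ← sq_abs]
    nlinarith [sq_nonneg (|d| - κ), abs_nonneg d]
  refine (sum_le_sum fun u _ => h2 _).trans ?_
  rw [sum_add_distrib, ← sum_div, sum_const, card_univ, nsmul_eq_mul, add_mul, mul_comm κ]
  gcongr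
  refine (div_le_div_of_nonneg_right h1 hκ.le).trans_eq ?_
  field_simp

lemma half (r : ℕ) (y : V → ℝ) (hy : ∀ u, y u ∈ Set.Icc (0 : ℝ) 1) (μ : ty r → ty r → Prop)
    [∀ a b, Decidable (μ a b)] (Δ : ℕ) :
    ∑ u, ∑ v ∈ N G u, (if μ (col G r u) (col G r v) then y u - Av (col G r) y (col G r u) else 0) ≤
      Δ * ∑ u, |Av (col G (r + 1)) y (col G (r + 1) u) - Av (col G r) y (col G r u)|
        + ∑ u with Δ < #(N G u), (#(N G u) : ℝ) := by
  let M : ty (r + 1) → ℝ := fun c => (Multiset.map (fun a => if μ (pr r c) a then (1 : ℝ) else 0) c).sum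
  have hM : ∀ u, M (col G (r + 1) u) = ∑ v ∈ N G u, if μ (col G r u) (col G r v) then 1 else 0 := by
    intro u
    simp only [M, pr_col]
    show (Multiset.map _ (Multiset.map _ _)).sum = _
    rw [Multiset.map_map]; rfl
  have h1 : ∀ u, ∑ v ∈ N G u, (if μ (col G r u) (col G r v) then y u - Av (col G r) y (col G r u)
      else 0) = M (col G (r + 1) u) * y u - M (col G (r + 1) u) * Av (col G r) y (col G r u) := by
    intro u
    rw [← mul_sub, hM, sum_mul]
    simp
  simp only [h1]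
  rw [sum_sub_distrib, ce, ← sum_sub_distrib, mul_sum, sum_filter, ← sum_add_distrib]
  refine sum_le_sum fun u _ => ?_
  have m0 : 0 ≤ M (col G (r + 1) u) := by rw [hM]; positivity
  have m1 : M (col G (r + 1) u) ≤ #(N G u) := by
    rw [hM, sum_boole]; exact_mod_cast card_filter_le _ _
  have a := Av_mem (col G (r + 1)) hy (col G (r + 1) u)
  have b := Av_mem (col G r) hy (col G r u)
  rw [← mul_sub]
  generalize hd : Av (col G (r + 1)) y (col G (r + 1) u) - Av (col G r) y (col G r u) = d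
  have d1 : d ≤ 1 := by linarith [a.2, b.1]
  split_ifs with h
  · nlinarith [mul_nonneg (Nat.cast_nonneg (α := ℝ) Δ) (abs_nonneg d)]
  · have : (#(N G u) : ℝ) ≤ Δ := by exact_mod_cast not_lt.1 h
    nlinarith [le_abs_self d, abs_nonneg d]

lemma edge_err (r : ℕ) (y y' : V → ℝ) (hy : ∀ u, y u ∈ Set.Icc (0 : ℝ) 1)
    (hy' : ∀ u, y' u ∈ Set.Icc (0 : ℝ) 1) (Δ : ℕ) {c : ℝ}
    (h : ∑ u, |Av (col G (r + 1)) y (col G (r + 1) u) - Av (col G r) y (col G r u)| ≤ c)
    (h' : ∑ u, |Av (col G (r + 1)) y' (col G (r + 1) u) - Av (col G r) y' (col G r u)| ≤ c) :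
    ∑ u, ∑ v ∈ N G u, min (y u) (y' v) ≤
      ∑ u, ∑ v ∈ N G u, min (Av (col G r) y (col G r u)) (Av (col G r) y' (col G r v))
        + 2 * (Δ * c + ∑ u with Δ < #(N G u), (#(N G u) : ℝ)) := by
  have h1 := half G r y hy (fun a b => Av (col G r) y a ≤ Av (col G r) y' b) Δ
  have h2 := half G r y' hy' (fun b a => ¬ Av (col G r) y a ≤ Av (col G r) y' b) Δ
  rw [sum_N] at h2
  have h3 := mul_le_mul_of_nonneg_left h (Nat.cast_nonneg Δ)
  have h4 := mul_le_mul_of_nonneg_left h' (Nat.cast_nonneg Δ)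
  refine le_trans ?_ (add_le_add le_rfl ((add_le_add h1 h2).trans (by linarith)))
  simp only [← sum_add_distrib]
  refine sum_le_sum fun u _ => sum_le_sum fun v _ => ?_
  by_cases k : Av (col G r) y (col G r u) ≤ Av (col G r) y' (col G r v)
  · simp [k]
  · simp [k, min_eq_right (not_le.1 k).le]

end Pool.Agent.H.MP_a763a9_pr
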