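import Mathlib
import Pool.Agent.H.MP_a763a9_pr.E

open Real Finset Function MeasureTheory

namespace Pool.Agent.H.MP_a763a9_pr

noncomputable def st (a t : ℝ) : ℝ := if t < a then 1 else 0

def Has (φ : ℝ → ℝ) (c : ℝ) : Prop := IntervalIntegrable φ volume 0 1 ∧ ∫ t in (0 : ℝ)..1, φ t = c

lemma Has.add {φ ψ : ℝ → ℝ} {c d : ℝ} (h : Has φ c) (h' : Has ψ d) :
    Has (fun t => φ t + ψ t) (c + d) :=
  ⟨h.1.add h'.1, by rw [intervalIntegral.integral_add h.1 h'.1, h.2, h'.2]⟩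

lemma Has.mul {φ : ℝ → ℝ} {c : ℝ} (a : ℝ) (h : Has φ c) : Has (fun t => a * φ t) (a * c) :=
  ⟨h.1.const_mul a, by rw [intervalIntegral.integral_const_mul, h.2]⟩

lemma Has.sum {ι : Type} (s : Finset ι) {φ : ι → ℝ → ℝ} {c : ι → ℝ} (h : ∀ i ∈ s, Has (φ i) (c i)) :
    Has (fun t => ∑ i ∈ s, φ i t) (∑ i ∈ s, c i) := by
  classical
  induction s using Finset.induction_on with
  | empty => simp [Has]
  | insert i s hi ih =>
    simp only [sum_insert hi]
    exact (h i (mem_insert_self _ _)).add (ih fun j hj => h j (mem_insert_of_mem hj))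

lemma Has.le {φ : ℝ → ℝ} {c B : ℝ} (h : Has φ c) (hB : ∀ t, φ t ≤ B) : c ≤ B := by
  have := intervalIntegral.integral_mono zero_le_one h.1 (intervalIntegrable_const (c := B)) hB
  simpa [h.2] using this

lemma has_st {a : ℝ} (ha : a ∈ Set.Icc (0 : ℝ) 1) : Has (st a) a := by
  refine ⟨Antitone.intervalIntegrable fun t t' h => ?_, ?_⟩
  · unfold st
    split_ifs <;> linarith
  · have := intervalIntegral.integral_indicator (μ := volume) (f := fun _ => (1 : ℝ)) ha
    simp only [intervalIntegral.integral_const, sub_zero, smul_eq_mul, mul_one] at this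
    refine Eq.trans (intervalIntegral.integral_congr_ae ?_) this
    filter_upwards [Measure.ae_ne volume a] with t ht _
    simp [st, Set.indicator, lt_iff_le_and_ne, ht]

lemma st_min (a b t : ℝ) : min (st a t) (st b t) = st (min a b) t := by
  unfold st
  by_cases h : t < a <;> by_cases h' : t < b <;> simp [h, h']

variable (J : ℝ) (k : ℕ) (bf : ℕ → ℝ)

noncomputable def g (d i : ℕ) : ℝ := binEntropy (i / k) + bf d * (i / k)

noncomputable def D (s s' : ℕ) : ℝ := I J ((s + 1 : ℕ) / k) ((s' + 1 : ℕ) / k) - I J (s / k) ((s' + 1 : ℕ) / k)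
  - (I J ((s + 1 : ℕ) / k) (s' / k) - I J (s / k) (s' / k))

noncomputable def P1 (d : ℕ) (f : ℕ → ℝ) : ℝ := ∑ s ∈ range k, (g k bf d (s + 1) - g k bf d s) * f s

noncomputable def P2 (f f' : ℕ → ℝ) : ℝ :=
  ∑ s ∈ range k, ∑ s' ∈ range k, D J k s s' * min (f s) (f' s')

def ind (x s : ℕ) : ℝ := if s < x then 1 else 0

variable {J k}

lemma gm {i : ℕ} (h : i ≤ k) : (i / k : ℝ) ∈ Set.Icc (0 : ℝ) 1 :=
  ⟨by positivity, div_le_one_of_le₀ (by exact_mod_cast h) (by positivity)⟩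

lemma D_nonneg (hJ : 0 ≤ J) {s s' : ℕ} (h : s < k) (h' : s' < k) : 0 ≤ D J k s s' := by
  have := I_super hJ (gm h.le) (gm h'.le) (gm h) (gm h') (by gcongr; omega) (by gcongr; omega)
  unfold D; linarith

lemma sum_ind {x : ℕ} (hx : x ≤ k) (f : ℕ → ℝ) :
    ∑ s ∈ range k, f s * ind x s = ∑ s ∈ range x, f s := by
  simp only [ind, mul_ite, mul_one, mul_zero, ← sum_filter]
  congr 1
  ext s; simp; omega

lemma P1_ind {x : ℕ} (hx : x ≤ k) (d : ℕ) : P1 k bf d (ind x) = g k bf d x := by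
  rw [P1, sum_ind hx, sum_range_sub]
  simp [g]

lemma P2_ind (hJ : 0 ≤ J) {x x' : ℕ} (hx : x ≤ k) (hx' : x' ≤ k) :
    P2 J k (ind x) (ind x') = I J (x / k) (x' / k) := by
  have : ∀ s s', min (ind x s) (ind x' s') = ind x' s' * ind x s := by
    intro s s'; unfold ind; split_ifs <;> simp
  simp only [P2, this, ← mul_assoc, ← sum_mul, sum_ind hx', sum_ind hx, D]
  have e : ∀ s : ℕ, ∑ s' ∈ range x', (I J ((s + 1 : ℕ) / k) ((s' + 1 : ℕ) / k)
      - I J (s / k) ((s' + 1 : ℕ) / k) - (I J ((s + 1 : ℕ) / k) (s' / k) - I J (s / k) (s' / k))) = _ :=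
    fun s => sum_range_sub (fun s' : ℕ => I J ((s + 1 : ℕ) / k) (s' / k) - I J (s / k) (s' / k)) x'
  simp only [e]
  rw [sum_sub_distrib, sum_range_sub fun s : ℕ => I J (s / k) (x' / k),
    sum_range_sub fun s : ℕ => I J (s / k) ((0 : ℕ) / k)]
  simp [I_zero hJ (gm hx'), I_symm J _ 0, I_zero hJ (gm hx), I_zero hJ]

lemma P2_bd (hJ : 0 ≤ J) : ∑ s ∈ range k, ∑ s' ∈ range k, D J k s s' ≤ J := by
  have := P2_ind hJ (le_refl k) (le_refl k)
  refine le_trans (le_of_eq ?_) (this.trans_le (I_le_J hJ (gm le_rfl) (gm le_rfl)))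
  refine sum_congr rfl fun s hs => sum_congr rfl fun s' hs' => ?_
  simp [ind, mem_range.1 hs, mem_range.1 hs']

lemma P2_mem (hJ : 0 ≤ J) {f f' : ℕ → ℝ} (h : ∀ s, f s ∈ Set.Icc (0 : ℝ) 1)
    (h' : ∀ s, f' s ∈ Set.Icc (0 : ℝ) 1) : 0 ≤ P2 J k f f' ∧ P2 J k f f' ≤ J :=
  ⟨sum_nonneg fun _ hs => sum_nonneg fun _ hs' => mul_nonneg
    (D_nonneg hJ (mem_range.1 hs) (mem_range.1 hs')) (le_min (h _).1 (h' _).1),
   le_trans (sum_le_sum fun _ hs => sum_le_sum fun _ hs' => mul_le_of_le_one_right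
    (D_nonneg hJ (mem_range.1 hs) (mem_range.1 hs')) ((min_le_left _ _).trans (h _).2)) (P2_bd hJ)⟩

lemma P1_bd {f : ℕ → ℝ} (h : ∀ s, f s ∈ Set.Icc (0 : ℝ) 1) (d : ℕ) :
    |P1 k bf d f| ≤ k * (1 + |bf d|) := by
  refine (abs_sum_le_sum_abs _ _).trans ((sum_le_sum (g := fun _ => 1 + |bf d|)
    fun s hs => ?_).trans (by simp [mul_add]))
  have hs := mem_range.1 hs
  rw [abs_mul, abs_of_nonneg (h s).1]
  refine (mul_le_of_le_one_right (abs_nonneg _) (h s).2).trans ?_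
  have a := gm hs
  have b := gm hs.le
  have l : log 2 ≤ 1 := by linarith [log_two_lt_d9]
  have e : g k bf d (s + 1) - g k bf d s = (binEntropy ((s + 1 : ℕ) / k) - binEntropy (s / k))
      + bf d * ((s + 1 : ℕ) / k - s / k) := by unfold g; ring
  rw [e]
  refine (abs_add_le _ _).trans (add_le_add ?_ ?_)
  · rw [abs_le]
    constructor <;> linarith [binEntropy_nonneg a.1 a.2, binEntropy_nonneg b.1 b.2,
      binEntropy_le_log_two (p := (s + 1 : ℕ) / k), binEntropy_le_log_two (p := s / k)]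
  · rw [abs_mul]
    refine mul_le_of_le_one_right (abs_nonneg _) ?_
    rw [abs_le]
    constructor <;> linarith [a.1, a.2, b.1, b.2]

variable {V : Type} [Fintype V] [LinearOrder V] (G : SimpleGraph V)

open Classical in
noncomputable def EE : Finset (V × V) := {p | p.1 < p.2 ∧ G.Adj p.1 p.2}

lemma mem_EE {e : V × V} : e ∈ EE G ↔ e.1 < e.2 ∧ G.Adj e.1 e.2 := by simp [EE]

lemma sum_EE (f : V → V → ℝ) (hf : ∀ u v, f u v = f v u) :
    ∑ e ∈ EE G, f e.1 e.2 = 1 / 2 * ∑ u, ∑ v ∈ N G u, f u v := by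
  classical
  have h1 : ∑ e ∈ EE G, f e.1 e.2 = ∑ u, ∑ v ∈ N G u, if u < v then f u v else 0 := by
    simp only [EE, N, sum_filter, Fintype.sum_prod_type]
    refine sum_congr rfl fun u _ => sum_congr rfl fun v _ => ?_
    by_cases h : u < v <;> simp [h]
  have h2 := sum_N G fun u v => if u < v then f u v else 0
  have h3 : ∑ u, ∑ v ∈ N G u, f u v = ∑ u, ∑ v ∈ N G u, (if u < v then f u v else 0)
      + ∑ u, ∑ v ∈ N G u, if v < u then f v u else 0 := by
    simp only [← sum_add_distrib]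
    refine sum_congr rfl fun u _ => sum_congr rfl fun v hv => ?_
    have : u ≠ v := G.ne_of_adj (by simpa [N] using hv)
    rcases lt_or_gt_of_ne this with h | h <;> simp [h, h.not_gt, hf u v]
  linarith

variable (J k) in
noncomputable def T (f : V → ℕ → ℝ) (u : V) : ℝ :=
  P1 k bf #(N G u) (f u) + 1 / 2 * ∑ v ∈ N G u, P2 J k (f u) (f v)

lemma T_ind (hJ : 0 ≤ J) {x : V → ℕ} (hx : ∀ u, x u ≤ k) :
    ∑ u, T J k bf G (fun u => ind (x u)) u = F J (EE G) (fun u => bf #(N G u)) fun u => x u / k := by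
  simp only [T, P1_ind bf (hx _), P2_ind hJ (hx _) (hx _), sum_add_distrib, ← mul_sum, F, g]
  rw [sum_EE G (fun u v => I J (x u / k) (x v / k)) fun u v => I_symm _ _ _]

lemma T_le (hJ : 0 ≤ J) {f : V → ℕ → ℝ} (h : ∀ u s, f u s ∈ Set.Icc (0 : ℝ) 1)
    (ha : ∀ u, Antitone (f u)) :
    ∑ u, T J k bf G f u ≤ log (∑ σ, w J (EE G) (fun u => bf #(N G u)) σ) := by
  have key : Has (fun t => ∑ u, T J k bf G (fun u s => st (f u s) t) u) (∑ u, T J k bf G f u) := by
    refine Has.sum _ fun u _ => Has.add (Has.sum _ fun s _ => Has.mul _ (has_st (h u s)))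
      (Has.mul _ (Has.sum _ fun v _ => Has.sum _ fun s _ => Has.sum _ fun s' _ => Has.mul _ ?_))
    simp only [st_min]
    exact has_st ⟨le_min (h u s).1 (h v s').1, (min_le_left _ _).trans (h u s).2⟩
  refine key.le fun t => ?_
  have hx : ∀ u, ∃ x ≤ k, ∀ s ∈ range k, st (f u s) t = ind x s := by
    intro u
    have ex : ∃ s, k ≤ s ∨ f u s ≤ t := ⟨k, .inl le_rfl⟩
    refine ⟨Nat.find ex, Nat.find_min' ex (.inl le_rfl), fun s hs => ?_⟩
    unfold st ind
    refine if_congr ⟨fun h => ?_, fun h => ?_⟩ rfl rfl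
    · by_contra h'
      rcases Nat.find_spec ex with k | k
      · have := mem_range.1 hs; omega
      · linarith [ha u (not_lt.1 h')]
    · exact not_le.1 fun k => Nat.find_min ex h (.inr k)
  choose x hx1 hx2 using hx
  refine le_trans (le_of_eq ?_) ((T_ind bf G hJ hx1).trans_le
    (lower hJ (fun e he => ((mem_EE G).1 he).1.ne) (fun u => gm (hx1 u)) _))
  refine sum_congr rfl fun u _ => ?_
  simp only [T, P1, P2]
  congr 1
  · exact sum_congr rfl fun s hs => by rw [hx2 u s hs]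
  · congr 1
    exact sum_congr rfl fun v _ => sum_congr rfl fun s hs => sum_congr rfl fun s' hs' => by
      rw [hx2 u s hs, hx2 v s' hs']

omit [LinearOrder V] in
lemma T_av (hJ : 0 ≤ J) (r : ℕ) (y : V → ℕ → ℝ) (hy : ∀ u s, y u s ∈ Set.Icc (0 : ℝ) 1) (Δ : ℕ) {c : ℝ}
    (hc : 0 ≤ c) (h : ∀ s < k, ∑ u, |Av (col G (r + 2)) (y · s) (col G (r + 2) u)
      - Av (col G (r + 1)) (y · s) (col G (r + 1) u)| ≤ c) :
    ∑ u, T J k bf G y u ≤ ∑ u, T J k bf G (fun u s => Av (col G (r + 1)) (y · s) (col G (r + 1) u)) u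
      + J * (Δ * c + ∑ u with Δ < #(N G u), (#(N G u) : ℝ)) := by
  simp only [T, sum_add_distrib, ← mul_sum, add_assoc]
  refine add_le_add (le_of_eq ?_) ?_
  · simp only [P1]
    rw [sum_comm, sum_comm (s := univ)]
    refine sum_congr rfl fun s _ => ?_
    have := ce (col G (r + 1)) (y · s) fun c : Multiset (ty r) =>
      g k bf (Multiset.card c) (s + 1) - g k bf (Multiset.card c) s
    simpa [col] using this
  · have e : ∀ f : V → ℕ → ℝ, ∑ u, ∑ v ∈ N G u, P2 J k (f u) (f v) = ∑ s ∈ range k, ∑ s' ∈ range k,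
        D J k s s' * ∑ u, ∑ v ∈ N G u, min (f u s) (f v s') := by
      intro f
      simp only [P2, mul_sum]
      rw [sum_comm (s := range k)]
      simp only [sum_comm (s := range k) (t := univ)]
      refine sum_congr rfl fun u _ => ?_
      simp only [sum_comm (s := range k) (t := N G u)]
      exact sum_congr rfl fun v _ => sum_comm
    rw [e, e fun u s => Av (col G (r + 1)) (y · s) (col G (r + 1) u)]
    have h1 := sum_le_sum fun s (hs : s ∈ range k) => sum_le_sum fun s' (hs' : s' ∈ range k) =>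
      mul_le_mul_of_nonneg_left (edge_err G (r + 1) (y · s) (y · s') (hy · s) (hy · s') Δ
        (h s (mem_range.1 hs)) (h s' (mem_range.1 hs')))
        (D_nonneg hJ (mem_range.1 hs) (mem_range.1 hs'))
    have h0 : 0 ≤ Δ * c + ∑ u with Δ < #(N G u), (#(N G u) : ℝ) := by positivity
    generalize Δ * c + ∑ u with Δ < #(N G u), (#(N G u) : ℝ) = B at *
    simp only [mul_add, sum_add_distrib, ← sum_mul] at h1
    nlinarith [mul_le_mul_of_nonneg_right (P2_bd (k := k) hJ) h0]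

lemma round (hJ : 0 ≤ J) {C ω : ℝ} (hC : ∀ d, |bf d| ≤ C * (1 + d)) (hk : 0 < k)
    (hω : ∀ a ∈ Set.Icc (0 : ℝ) 1, ∀ a' ∈ Set.Icc (0 : ℝ) 1, |a - a'| ≤ 1 / k →
      binEntropy a ≤ binEntropy a' + ω) {r : V → ℝ} (hr : ∀ v, r v ∈ Set.Icc (0 : ℝ) 1) :
    ∃ x : V → ℕ, (∀ u, x u ≤ k) ∧ F J (EE G) (fun u => bf #(N G u)) r ≤
      F J (EE G) (fun u => bf #(N G u)) (fun u => x u / k) + (ω + C / k) * Fintype.card V
        + (C + J) / k * ∑ u, (#(N G u) : ℝ) := by
  have hk' : (0 : ℝ) < k := by exact_mod_cast hk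
  have h1 : ∀ u, ⌊k * r u⌋₊ ≤ k := fun u => Nat.floor_le_of_le (mul_le_of_le_one_right hk'.le (hr u).2)
  have h2 : ∀ u, |r u - ⌊k * r u⌋₊ / k| ≤ 1 / k := by
    intro u
    have a := Nat.floor_le (mul_nonneg hk'.le (hr u).1)
    have b := Nat.lt_floor_add_one (k * r u)
    rw [show r u - ⌊k * r u⌋₊ / k = (k * r u - ⌊k * r u⌋₊) / k by field_simp, abs_div, abs_of_pos hk']
    gcongr
    rw [abs_le]; constructor <;> linarith
  refine ⟨_, h1, ?_⟩
  have h3 := sum_EE G (fun _ _ => 2 * (J / k)) fun _ _ => rfl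
  have h4 : ∑ e ∈ EE G, I J (r e.1) (r e.2) ≤
      ∑ e ∈ EE G, (I J (⌊k * r e.1⌋₊ / k) (⌊k * r e.2⌋₊ / k) + 2 * (J / k)) := by
    refine sum_le_sum fun e _ => ?_
    have a := I_lip hJ (hr e.1) (gm (h1 e.1)) (hr e.2)
    have b := I_lip hJ (hr e.2) (gm (h1 e.2)) (gm (h1 e.1))
    rw [I_symm J (r e.2), I_symm J (⌊k * r e.2⌋₊ / k)] at b
    have c := mul_le_mul_of_nonneg_left (h2 e.1) hJ
    have d := mul_le_mul_of_nonneg_left (h2 e.2) hJ
    rw [mul_one_div] at c d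
    linarith
  have h5 : ∑ u, (binEntropy (r u) + bf #(N G u) * r u) ≤ ∑ u, (binEntropy (⌊k * r u⌋₊ / k)
      + bf #(N G u) * (⌊k * r u⌋₊ / k) + (ω + C / k) + C / k * #(N G u)) := by
    refine sum_le_sum fun u _ => ?_
    have a := hω _ (hr u) _ (gm (h1 u)) (h2 u)
    have b := (le_abs_self _).trans ((abs_mul _ _).trans_le (mul_le_mul (hC #(N G u)) (h2 u)
      (abs_nonneg _) ((abs_nonneg _).trans (hC _))))
    have : C * (1 + #(N G u)) * (1 / k) = C / k + C / k * #(N G u) := by ring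
    linarith
  simp only [F, sum_add_distrib, ← mul_sum, sum_const, card_univ, nsmul_eq_mul, ← sum_mul] at *
  rw [add_div]
  linarith

end Pool.Agent.H.MP_a763a9_pr
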