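import Mathlib
import Pool.Agent.H.MP_a763a9_pr.F

open Real Finset Function SimpleGraph

namespace Pool.Agent.H.MP_a763a9_pr

def Iso {V W : Type} (G : SimpleGraph V) (v : V) (r : ℕ) (H : SimpleGraph W) (o : W) : Prop :=
  ∃ φ : G.induce {u | G.edist v u ≤ r} ≃g H, φ ⟨v, by simp⟩ = o

lemma edist_adj {V : Type} {G : SimpleGraph V} (x : V) {u v : V} (h : G.Adj u v) :
    G.edist x v ≤ G.edist x u + 1 := by
  rw [← edist_eq_one_iff_adj.2 h]; exact G.edist_triangle

lemma col_iso {V W : Type} [Fintype V] [Fintype W] {G : SimpleGraph V} {v : V} {r : ℕ}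
    {H : SimpleGraph W} {o : W} (h : Iso G v r H o) : col G r v = col H r o := by
  obtain ⟨φ, rfl⟩ := h
  suffices ∀ (j : ℕ) (w : V) (hw : G.edist v w ≤ r), G.edist v w + j ≤ r →
      col G j w = col H j (φ ⟨w, hw⟩) from this r v _ (by simp)
  intro j
  induction j with
  | zero => intros; rfl
  | succ j ih =>
    intro w hw hj
    have h1 : ∀ u ∈ (N G w).val, G.edist v u + j ≤ r := fun u hu => by
      refine le_trans ?_ hj
      push_cast
      rw [add_comm (j : ℕ∞), ← add_assoc]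
      gcongr
      exact edist_adj v (by simpa [N] using hu)
    refine Multiset.map_eq_map_of_bij_of_nodup _ _ (N G w).nodup (N H _).nodup
      (fun u hu => φ ⟨u, le_self_add.trans (h1 u hu)⟩) (fun u hu => ?_) (fun u _ u' _ h => ?_)
      (fun z hz => ?_) fun u hu => ih u _ (h1 u hu)
    · simpa [N, φ.map_adj_iff] using hu
    · exact congrArg Subtype.val (φ.injective h)
    · obtain ⟨u, rfl⟩ := φ.surjective z
      exact ⟨u.1, by simpa [N, φ.map_adj_iff] using hz, rfl⟩

lemma one_parent {V : Type} {G : SimpleGraph V} {v x u u' : V} {R : ℕ}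
    (h : (G.induce {u | G.edist v u ≤ (R + 1 : ℕ)}).IsAcyclic) (hv : G.edist v x ≤ R)
    (a : G.Adj v u) (a' : G.Adj v u') (d : G.edist u x ≤ G.edist v x)
    (d' : G.edist u' x ≤ G.edist v x) : u = u' := by
  classical
  have key : ∀ {u}, G.Adj v u → G.edist u x ≤ G.edist v x → ∃ p : G.Walk u x, v ∉ p.support ∧
      ∀ y ∈ p.support, G.edist v y ≤ (R + 1 : ℕ) := by
    intro u a d
    obtain ⟨p, hp⟩ := exists_walk_of_edist_ne_top
      (ne_top_of_le_ne_top (ENat.natCast_ne_top R) (d.trans hv))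
    refine ⟨p, fun k => ?_, fun y hy => ?_⟩
    · have h1 := congrArg Walk.length (p.take_spec k)
      rw [Walk.length_append] at h1
      have h2 := (hp.le.trans d).trans (edist_le (p.dropUntil v k))
      have h3 : (p.takeUntil v k).length = 0 := by
        have : p.length ≤ (p.dropUntil v k).length := by exact_mod_cast h2
        omega
      exact a.ne' (Walk.eq_of_length_eq_zero h3)
    · refine (edist_le (Walk.cons a (p.takeUntil y hy))).trans ?_
      have h2 : p.length ≤ R := by exact_mod_cast hp.le.trans (d.trans hv)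
      have := p.length_takeUntil_le hy
      rw [Walk.length_cons]
      exact_mod_cast by omega
  obtain ⟨p, p1, p2⟩ := key a d
  obtain ⟨p', p1', p2'⟩ := key a' d'
  have hs : ∀ y ∈ (Walk.cons a' (p'.append p.reverse)).support,
      y ∈ {u | G.edist v u ≤ (R + 1 : ℕ)} := by
    intro y hy
    simp only [Walk.support_cons, List.mem_cons, Walk.mem_support_append_iff, Walk.support_reverse,
      List.mem_reverse] at hy
    rcases hy with rfl | hy | hy
    · simp
    · exact p2' y hy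
    · exact p2 y hy
  have hb := isBridge_iff_forall_walk_mem_edges.1 (isAcyclic_iff_forall_adj_isBridge.1 h
    (induce_adj.2 a)) (Walk.induce _ _ hs)
  have he : s(v, u) ∈ (Walk.cons a' (p'.append p.reverse)).edges := by
    rw [← Walk.map_induce _ hs]
    exact (congrArg (s(v, u) ∈ ·) (Walk.edges_map _ _)).mpr (List.mem_map.2 ⟨_, hb, rfl⟩)
  simp only [Walk.edges_cons, List.mem_cons, Walk.edges_append, List.mem_append, Walk.edges_reverse,
    List.mem_reverse] at he
  rcases he with he | he | he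
  · exact Sym2.congr_right.1 he
  · exact absurd (p'.fst_mem_support_of_mem_edges he) p1'
  · exact absurd (p.fst_mem_support_of_mem_edges he) p1

variable {V : Type} [Fintype V] [LinearOrder V] (G : SimpleGraph V)

lemma lev_ex {S : Finset V} {R : ℕ}
    (h : ∀ v ∉ S, (G.induce {u | G.edist v u ≤ (R + 1 : ℕ)}).IsAcyclic) (x : V) :
    ∃ lev, Lev (EE G) S R x lev := by
  obtain ⟨lev, hl⟩ : ∃ lev : V → ℕ, ∀ v, (lev v : ℕ∞) = min (G.edist x v) (R + 1 : ℕ) :=
    ⟨fun v => (min (G.edist x v) (R + 1 : ℕ)).toNat, fun v => ENat.natCast_toNat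
      (ne_top_of_le_ne_top (ENat.natCast_ne_top _) (min_le_right _ _))⟩
  have h1 : ∀ u v, G.Adj u v → lev v ≤ lev u + 1 := by
    intro u v a
    have : (lev v : ℕ∞) ≤ lev u + 1 := by
      rw [hl, hl, ← min_add_add_right]
      exact min_le_min (edist_adj x a) le_self_add
    exact_mod_cast this
  have h2 : ∀ v, lev v ≤ R → G.edist v x = lev v := by
    intro v hv
    rw [edist_comm, hl]
    refine (min_eq_left (le_of_not_ge fun k => ?_)).symm
    have := hl v
    rw [min_eq_right k] at this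
    have : lev v = R + 1 := by exact_mod_cast this
    omega
  refine ⟨lev, fun v => ⟨fun k => ?_, fun k => ?_⟩, fun e he => ⟨h1 _ _ ((mem_EE G).1 he).2.symm,
    h1 _ _ ((mem_EE G).1 he).2⟩, fun v hv hR => card_le_one.2 fun e he e' he' => ?_⟩
  · simpa [k] using h2 v (by omega)
  · have := hl v
    simpa [k] using this
  · have key : ∀ e ∈ EE G, child lev e = v → ∃ u, G.Adj v u ∧ lev u ≤ lev v ∧
        e = (min u v, max u v) := by
      rintro ⟨a, b⟩ he k
      obtain ⟨h1, h2⟩ := (mem_EE G).1 he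
      unfold child at k
      simp only at h1 h2 k
      split_ifs at k with l <;> subst k
      · exact ⟨a, h2.symm, l, by simp [h1.le]⟩
      · exact ⟨b, h2, by omega, by simp [h1.le]⟩
    obtain ⟨u, a, l, rfl⟩ := key e (mem_filter.1 he).1 (mem_filter.1 he).2
    obtain ⟨u', a', l', rfl⟩ := key e' (mem_filter.1 he').1 (mem_filter.1 he').2
    rw [one_parent (x := x) (h v hv) (by rw [h2 v hR]; exact_mod_cast hR) a a'
      (by rw [h2 v hR, h2 u (by omega)]; exact_mod_cast l)
      (by rw [h2 v hR, h2 u' (by omega)]; exact_mod_cast l')]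

lemma deg_EE (x : V) : #{e ∈ EE G | e.1 = x ∨ e.2 = x} ≤ #(N G x) := by
  refine card_le_card_of_injOn (fun e => if e.1 = x then e.2 else e.1) (fun e he => ?_)
    fun e he e' he' h => ?_
  · simp only [coe_filter, mem_EE, Set.mem_ofPred_eq, N, mem_univ, true_and] at he ⊢
    split_ifs with k
    · exact k ▸ he.1.2
    · exact (he.2.resolve_left k) ▸ he.1.2.symm
  · simp only [coe_filter, mem_EE, Set.mem_ofPred_eq] at he he' h
    split_ifs at h with k k' k'
    · exact Prod.ext (k.trans k'.symm) h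
    · exact absurd (he.1.1.trans (h ▸ he'.1.1)) (by simp [k, he'.2.resolve_left k'])
    · exact absurd (he'.1.1.trans (h ▸ he.1.1)) (by simp [k', he.2.resolve_left k])
    · exact Prod.ext h ((he.2.resolve_left k).trans (he'.2.resolve_left k').symm)

omit [LinearOrder V] in
open Classical in
lemma split {ι : Type} (Λ : Finset ι) (cls : ι → V → Prop) (A : V → ℝ) (θ p : ι → ℝ) {B ζ ε : ℝ}
    (hd : ∀ i ∈ Λ, ∀ j ∈ Λ, ∀ u, cls i u → cls j u → i = j) (hA : ∀ i ∈ Λ, ∀ u, cls i u → A u = θ i)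
    (hB : ∀ u, |A u| ≤ B) (hθ : ∀ i, |θ i| ≤ B) (hp : 1 - ε ≤ ∑ i ∈ Λ, p i) (hζ : #Λ * ζ ≤ ε)
    (hf : ∀ i ∈ Λ, |#{u | cls i u} - p i * Fintype.card V| ≤ ζ * Fintype.card V) (hB0 : 0 ≤ B) :
    (#{u | ¬ ∃ i ∈ Λ, cls i u} : ℝ) ≤ 2 * ε * Fintype.card V ∧
      |∑ u, A u - (∑ i ∈ Λ, p i * θ i) * Fintype.card V| ≤ 3 * ε * B * Fintype.card V := by
  have h1 : ∀ f : V → ℝ, ∑ u, f u = ∑ i ∈ Λ, ∑ u with cls i u, f u
      + ∑ u with ¬ ∃ i ∈ Λ, cls i u, f u := by
    intro f
    rw [← sum_filter_add_sum_filter_not univ fun u => ∃ i ∈ Λ, cls i u, ← sum_biUnion]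
    · congr 2
      ext u; simp
    · intro i hi j hj hij
      exact disjoint_filter.2 fun u _ a b => hij (hd i hi j hj u a b)
  have hn : (0 : ℝ) ≤ Fintype.card V := Nat.cast_nonneg _
  have h2 := h1 fun _ => 1
  simp only [sum_const, card_univ, nsmul_eq_mul, mul_one] at h2
  have h3 := sum_le_sum fun i hi => (abs_le.1 (hf i hi)).1
  simp only [sum_sub_distrib, ← sum_mul, sum_const, nsmul_eq_mul] at h3
  have h4 : (#{u | ¬ ∃ i ∈ Λ, cls i u} : ℝ) ≤ 2 * ε * Fintype.card V := by
    nlinarith [mul_le_mul_of_nonneg_right hp hn, mul_le_mul_of_nonneg_right hζ hn]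
  refine ⟨h4, ?_⟩
  rw [h1 A, add_sub_right_comm, sum_mul, ← sum_sub_distrib]
  have h5 : |∑ i ∈ Λ, (∑ u with cls i u, A u - p i * θ i * Fintype.card V)|
      ≤ ∑ _i ∈ Λ, ζ * Fintype.card V * B := by
    refine (abs_sum_le_sum_abs _ _).trans (sum_le_sum fun i hi => ?_)
    rw [sum_congr rfl (g := fun _ => θ i) fun u hu => hA i hi u (mem_filter.1 hu).2, sum_const,
      nsmul_eq_mul, mul_right_comm, ← sub_mul, abs_mul]
    exact mul_le_mul (hf i hi) (hθ i) (abs_nonneg _) ((abs_nonneg _).trans (hf i hi))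
  have h6 : |∑ u with ¬ ∃ i ∈ Λ, cls i u, A u| ≤ ∑ u with ¬ ∃ i ∈ Λ, cls i u, B :=
    (abs_sum_le_sum_abs _ _).trans (sum_le_sum fun u _ => hB u)
  simp only [sum_const, nsmul_eq_mul] at h5 h6
  refine (abs_add_le _ _).trans ?_
  nlinarith [mul_le_mul_of_nonneg_right h4 hB0, mul_le_mul_of_nonneg_right hζ (mul_nonneg hn hB0)]

end Pool.Agent.H.MP_a763a9_pr
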