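import Mathlib
import Pool.Agent.H.MP_a763a9_pr.G

open Real Finset Function SimpleGraph

namespace Pool.Agent.H.MP_a763a9_pr

variable {V : Type} [Fintype V]

noncomputable def phi [LinearOrder V] (J : ℝ) (bf κ : ℕ → ℝ) (G : SimpleGraph V) : ℝ :=
  (log (∑ σ, w J (EE G) (fun u => bf #(N G u)) σ) + ∑ u, κ #(N G u)) / Fintype.card V

open Classical in
structure Nice (G : SimpleGraph V) (C τ ζ : ℝ) (Δ R : ℕ) {ι : Type} (Λ : Finset ι)
    (γ : ι → ty (R + 1)) (p : ι → ℝ) : Prop where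
  ex : ∃ cls : ι → V → Prop, (∀ i ∈ Λ, ∀ j ∈ Λ, ∀ u, cls i u → cls j u → i = j) ∧
    (∀ i ∈ Λ, ∀ u, cls i u → col G (R + 1) u = γ i ∧
      (G.induce {v | G.edist u v ≤ (R + 1 : ℕ)}).IsAcyclic) ∧
    ∀ i ∈ Λ, |#{u | cls i u} - p i * Fintype.card V| ≤ ζ * Fintype.card V
  pos : 0 < Fintype.card V
  deg : ∑ u, (#(N G u) : ℝ) ≤ C * Fintype.card V
  tail : ∑ u with Δ < #(N G u), (#(N G u) : ℝ) ≤ τ * Fintype.card V

variable {G : SimpleGraph V} {C τ ζ ε : ℝ} {Δ R : ℕ} {ι : Type} {Λ : Finset ι}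
  {γ : ι → ty (R + 1)} {p : ι → ℝ}

lemma Nice.near (h : Nice G C τ ζ Δ R Λ γ p) (hp : 1 - ε ≤ ∑ i ∈ Λ, p i) (hζ : #Λ * ζ ≤ ε)
    (Θ : ty (R + 1) → ℝ) {B : ℝ} (hB : 0 ≤ B) (hΘ : ∀ u, |Θ (col G (R + 1) u)| ≤ B * (1 + #(N G u))) :
    |∑ u, Θ (col G (R + 1) u) - (∑ i ∈ Λ, p i * max (-(B * (1 + Δ))) (min (B * (1 + Δ)) (Θ (γ i))))
      * Fintype.card V| ≤ (3 * ε * (B * (1 + Δ)) + 2 * B * τ) * Fintype.card V := by
  obtain ⟨cls, h1, h2, h3⟩ := h.ex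
  have hB' : 0 ≤ B * (1 + Δ) := by positivity
  have c1 : ∀ x : ℝ, |max (-(B * (1 + Δ))) (min (B * (1 + Δ)) x)| ≤ B * (1 + Δ) := fun x =>
    abs_le.2 ⟨le_max_left _ _, max_le (by linarith) (min_le_left _ _)⟩
  have k := (split Λ cls (fun u => max (-(B * (1 + Δ))) (min (B * (1 + Δ)) (Θ (col G (R + 1) u))))
    (fun i => max (-(B * (1 + Δ))) (min (B * (1 + Δ)) (Θ (γ i)))) p h1
    (fun i hi u hu => by simp only [(h2 i hi u hu).1]) (fun u => c1 _) (fun u => c1 _) hp hζ h3 hB').2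
  have k2 : |∑ u, (Θ (col G (R + 1) u) -
      max (-(B * (1 + Δ))) (min (B * (1 + Δ)) (Θ (col G (R + 1) u))))| ≤
      ∑ u with Δ < #(N G u), 2 * B * (#(N G u) : ℝ) := by
    rw [sum_filter]
    refine (abs_sum_le_sum_abs _ _).trans (sum_le_sum fun u _ => ?_)
    have a := hΘ u
    generalize Θ (col G (R + 1) u) = x at *
    split_ifs with l
    · have : (1 : ℝ) ≤ #(N G u) := by exact_mod_cast (by omega : 1 ≤ #(N G u))
      refine le_trans ?_ (a.trans (by nlinarith))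
      rw [abs_le]
      constructor <;> cases abs_cases x <;> cases max_cases (-(B * (1 + Δ))) (min (B * (1 + Δ)) x) <;>
        cases min_cases (B * (1 + Δ)) x <;> linarith
    · have : (#(N G u) : ℝ) ≤ Δ := by exact_mod_cast not_lt.1 l
      have a := abs_le.1 (a.trans (by gcongr : _ ≤ B * (1 + (Δ : ℝ))))
      rw [min_eq_right a.2, max_eq_right a.1]
      simp
  rw [sum_sub_distrib, ← mul_sum] at k2
  have k3 := mul_le_mul_of_nonneg_left h.tail (by positivity : 0 ≤ 2 * B)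
  rw [abs_le] at *
  constructor <;> linarith [k.1, k.2, k2.1, k2.2]

lemma Nice.up [LinearOrder V] (h : Nice G C τ ζ Δ R Λ γ p) (hp : 1 - ε ≤ ∑ i ∈ Λ, p i)
    (hζ : #Λ * ζ ≤ ε) {J C' a η : ℝ} {bf : ℕ → ℝ} (hJ : 0 ≤ J) (hC' : 0 ≤ C')
    (hb : ∀ d, |bf d| ≤ C' * (1 + d)) (ha : 0 < a) (hη : 0 < η)
    (hR : (1 + exp (J * Δ + (C' * (1 + Δ) + η))) ^ 4 ≤ a ^ 2 * R) :
    ∃ r : V → ℝ, (∀ v, r v ∈ Set.Icc (0 : ℝ) 1) ∧ log (∑ σ, w J (EE G) (fun u => bf #(N G u)) σ)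
      ≤ F J (EE G) (fun u => bf #(N G u)) r + (2 * ε + τ + (η + Δ * a / η)) * Fintype.card V := by
  classical
  obtain ⟨cls, h1, h2, h3⟩ := h.ex
  have k := (split Λ cls 0 0 p h1 (fun _ _ _ _ => rfl) (fun u => le_rfl) (fun u => le_rfl) hp hζ h3
    (abs_nonneg _)).1
  have hS : ∀ x ∉ ((univ.filter fun u => ¬ ∃ i ∈ Λ, cls i u) ∪ (univ.filter fun u => Δ < #(N G u))),
      (∃ i ∈ Λ, cls i x) ∧ #(N G x) ≤ Δ := by simp
  obtain ⟨r, hr, h4⟩ := upper (b := fun u => bf #(N G u)) hJ (fun e he => ((mem_EE G).1 he).1.ne)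
    (fun x _ => lev_ex G (fun v hv => by
      obtain ⟨i, hi, hv⟩ := (hS v hv).1
      exact (h2 i hi v hv).2) x) (fun x hx => (deg_EE G x).trans (hS x hx).2)
    (fun x hx => (hb _).trans (by gcongr; exact (hS x hx).2)) ha hη hR
  refine ⟨r, hr, h4.trans ?_⟩
  have h5 : (#((univ.filter fun u => ¬ ∃ i ∈ Λ, cls i u) ∪ (univ.filter fun u => Δ < #(N G u))) : ℝ) ≤
      #{u | ¬ ∃ i ∈ Λ, cls i u} + #{u | Δ < #(N G u)} := by exact_mod_cast card_union_le _ _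
  have h6 : (#{u | Δ < #(N G u)} : ℝ) ≤ ∑ u with Δ < #(N G u), (#(N G u) : ℝ) := by
    rw [card_eq_sum_ones]
    push_cast
    refine sum_le_sum fun u hu => ?_
    have := (mem_filter.1 hu).2
    exact_mod_cast (by omega : 1 ≤ #(N G u))
  linarith [h.tail]

lemma small {c δ : ℝ} (hc : 0 ≤ c) (hδ : 0 < δ) : ∃ x > 0, c * x ≤ δ :=
  ⟨δ / (c + 1), by positivity, by
    rw [← mul_div_assoc, div_le_iff₀ (by positivity)]; nlinarith⟩

theorem core {J C' : ℝ} {bf κ : ℕ → ℝ} (hJ : 0 ≤ J) (hC' : 0 ≤ C') (hb : ∀ d, |bf d| ≤ C' * (1 + d))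
    (hκ : ∀ d, |κ d| ≤ C' * (1 + d)) {δ : ℝ} (hδ : 0 < δ) {C : ℝ} (hC : 0 ≤ C) :
    ∃ τ > 0, ∀ Δ : ℕ, ∃ R : ℕ, ∃ ε > 0, ∀ {ι : Type} (Λ : Finset ι) (γ : ι → ty (R + 1)) (p : ι → ℝ)
      (ζ : ℝ), 1 - ε ≤ ∑ i ∈ Λ, p i → #Λ * ζ ≤ ε → ∀ {n n' : ℕ} (G : SimpleGraph (Fin n))
      (G' : SimpleGraph (Fin n')), Nice G C τ ζ Δ R Λ γ p → Nice G' C τ ζ Δ R Λ γ p →
      phi J bf κ G ≤ phi J bf κ G' + 9 * δ := by
  obtain ⟨d, d0, hd⟩ := Metric.uniformContinuousOn_iff_le.1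
    (isCompact_Icc.uniformContinuousOn_of_continuous (s := Set.Icc (0 : ℝ) 1)
      binEntropy_continuous.continuousOn) δ hδ
  obtain ⟨k, hk⟩ := exists_nat_gt (max (1 / d) ((C' + (C' + J) * C) / δ))
  have k0 : (0 : ℝ) < k := lt_of_le_of_lt (le_max_of_le_left (by positivity)) hk
  have k1 : 1 / (k : ℝ) ≤ d := by
    rw [one_div_le k0 d0]; exact ((le_max_left _ _).trans hk.le)
  have k2 : (C' + (C' + J) * C) / k ≤ δ := by
    rw [div_le_comm₀ k0 hδ]; exact ((le_max_right _ _).trans hk.le)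
  obtain ⟨B, hB⟩ : ∃ B, B = k * (1 + C') + J + C' := ⟨_, rfl⟩
  have B0 : 0 ≤ B := by rw [hB]; positivity
  obtain ⟨τ, τ0, hτ⟩ := small (c := 1 + J + 4 * B) (by positivity) hδ
  refine ⟨τ, τ0, fun Δ => ?_⟩
  obtain ⟨a, a0, ha⟩ := small (c := Δ / δ) (by positivity) hδ
  obtain ⟨c, c0, hc⟩ := small (c := J * Δ) (by positivity) hδ
  obtain ⟨R, hR⟩ := exists_nat_gt (max ((1 + exp (J * Δ + (C' * (1 + Δ) + δ))) ^ 4 / a ^ 2) (k / c ^ 2))
  have R0 : (0 : ℝ) < R := lt_of_le_of_lt (le_max_of_le_right (by positivity)) hR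
  have R1 := (le_max_left _ _).trans hR.le
  have R2 : k / (R * c) ≤ c := by
    have := (le_max_right _ _).trans hR.le
    rw [div_le_iff₀ (by positivity)] at this ⊢
    linarith
  rw [div_le_iff₀' (by positivity)] at R1
  obtain ⟨ε, ε0, hε⟩ := small (c := 2 + 6 * (B * (1 + Δ))) (by positivity) hδ
  refine ⟨R, ε, ε0, fun Λ γ p ζ hp hζ n n' G G' h h' => ?_⟩
  obtain ⟨q, hq, s1⟩ := h.up hp hζ hJ hC' hb a0 hδ R1
  obtain ⟨x, hx, s2⟩ := round bf G (ω := δ) hJ hb (by exact_mod_cast k0) (fun a ha a' ha' h => by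
    have := hd a ha a' ha' (h.trans k1)
    rw [Real.dist_eq, abs_le] at this
    linarith [this.2]) hq
  have hi : ∀ u s, ind (x u) s ∈ Set.Icc (0 : ℝ) 1 := fun u s => by
    unfold ind; split_ifs <;> simp
  obtain ⟨r, hr, s3⟩ := pigeon G (k := k) (by exact_mod_cast R0 : 0 < R) (fun s u => ind (x u) s)
    (fun s u => hi u s) c0
  have s4 := T_av bf G hJ r (fun u => ind (x u)) hi Δ (by positivity) s3
  rw [T_ind bf G hJ hx] at s4
  let Fr : ty (r + 1) → ℕ → ℝ := fun a s => Av (col G (r + 1)) (fun u => ind (x u) s) a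
  have f1 : ∀ a s, Fr a s ∈ Set.Icc (0 : ℝ) 1 := fun a s => Av_mem _ (fun u => hi u s) a
  have f2 : ∀ a, Antitone (Fr a) := fun a s s' h => Av_mono _ (fun u => by
    unfold ind; split_ifs <;> first | omega | simp) a
  obtain ⟨ρ, hρ⟩ := proj (by omega : r + 2 ≤ R + 1)
  let Θ₀ : Multiset (ty (r + 1)) → ℝ := fun m => P1 k bf m.card (Fr (pr _ m))
    + 1 / 2 * (m.map fun a => P2 J k (Fr (pr _ m)) (Fr a)).sum + κ m.card
  have e : ∀ {m : ℕ} (H : SimpleGraph (Fin m)) u, Θ₀ (ρ (col H (R + 1) u)) =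
      T J k bf H (fun u => Fr (col H (r + 1) u)) u + κ #(N H u) := by
    intro m H u
    simp only [Θ₀, hρ, pr_col, T]
    show P1 k bf (Multiset.map _ _).card _ + 1 / 2 * (Multiset.map _ (Multiset.map _ _)).sum
      + κ (Multiset.map _ _).card = _
    rw [Multiset.map_map, Multiset.card_map]; rfl
  have bd : ∀ {m : ℕ} (H : SimpleGraph (Fin m)) u,
      |Θ₀ (ρ (col H (R + 1) u))| ≤ B * (1 + #(N H u)) := by
    intro m H u
    rw [e, T]
    have a1 := P1_bd (k := k) bf (f1 (col H (r + 1) u)) #(N H u)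
    have a2 := sum_nonneg (s := N H u) fun v _ =>
      (P2_mem (k := k) hJ (f1 (col H (r + 1) u)) (f1 (col H (r + 1) v))).1
    have a3 := sum_le_sum (s := N H u) fun v _ =>
      (P2_mem (k := k) hJ (f1 (col H (r + 1) u)) (f1 (col H (r + 1) v))).2
    have a4 := hκ #(N H u)
    have a5 := mul_le_mul_of_nonneg_left (hb #(N H u)) k0.le
    have a6 : (0 : ℝ) ≤ #(N H u) := Nat.cast_nonneg _
    rw [sum_const, nsmul_eq_mul] at a3
    rw [abs_le] at a1 a4 ⊢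
    rw [hB]
    constructor <;> nlinarith [a1.1, a1.2, a4.1, a4.2, mul_nonneg k0.le a6, mul_nonneg hJ a6]
  have s5 := (abs_le.1 (h.near hp hζ (fun c => Θ₀ (ρ c)) B0 (bd G))).2
  have s6 := (abs_le.1 (h'.near hp hζ (fun c => Θ₀ (ρ c)) B0 (bd G'))).1
  have s7 := T_le (k := k) bf G' hJ (fun u => f1 (col G' (r + 1) u)) fun u => f2 (col G' (r + 1) u)
  simp only [e, sum_add_distrib] at s5 s6
  have n0 : (0 : ℝ) < Fintype.card (Fin n) := by exact_mod_cast h.pos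
  have n1 : (0 : ℝ) < Fintype.card (Fin n') := by exact_mod_cast h'.pos
  have t1 := mul_le_mul_of_nonneg_left h.tail hJ
  have t2 := mul_le_mul_of_nonneg_left h.deg (by positivity : 0 ≤ (C' + J) / k)
  generalize ∑ i ∈ Λ, p i * max (-(B * (1 + Δ))) (min (B * (1 + Δ)) (Θ₀ (ρ (γ i)))) = m at s5 s6
  have u1 : phi J bf κ G ≤ m + (2 * ε + τ + (δ + Δ * a / δ) + (δ + (C' + (C' + J) * C) / k)
      + J * Δ * (c + k / (R * c)) + J * τ + (3 * ε * (B * (1 + Δ)) + 2 * B * τ)) := by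
    rw [phi, div_le_iff₀ n0]
    have : (C' + (C' + J) * C) / k = C' / k + (C' + J) / k * C := by ring
    rw [this]
    linarith
  have u2 : m - (3 * ε * (B * (1 + Δ)) + 2 * B * τ) ≤ phi J bf κ G' := by
    rw [phi, le_div_iff₀ n1]
    linarith
  have u3 := mul_le_mul_of_nonneg_left R2 (by positivity : 0 ≤ J * Δ)
  have : Δ * a / δ = Δ / δ * a := by ring
  linarith

end Pool.Agent.H.MP_a763a9_pr
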