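import Mathlib
import Pool.Agent.H.MP_a763a9_pr.H

open Real Finset Function SimpleGraph MeasureTheory Filter Topology

namespace Pool.Agent.H.MP_a763a9_pr

lemma cauchy {Ω : ℕ → Type} [∀ n, MeasurableSpace (Ω n)] (μ : ∀ n, Measure (Ω n))
    [∀ n, IsProbabilityMeasure (μ n)] (X : ∀ n, Ω n → ℝ)
    (h : ∀ δ > 0, ∃ a, ∀ᶠ n in atTop, (μ n).real {ω | δ < |X n ω - a|} ≤ δ) :
    ∃ c, ∀ ε > 0, Tendsto (fun n => (μ n).real {ω | ε < |X n ω - c|}) atTop (𝓝 0) := by
  choose a ha using fun j : ℕ => h (1 / (j + 3)) (by positivity)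
  have l3 : ∀ i : ℕ, 1 / ((i : ℝ) + 3) ≤ 1 / 3 := fun i => by
    gcongr; linarith [Nat.cast_nonneg (α := ℝ) i]
  have key : ∀ i j : ℕ, |a i - a j| ≤ 1 / (i + 3) + 1 / (j + 3) := by
    intro i j
    obtain ⟨n, h1, h2⟩ := ((ha i).and (ha j)).exists
    by_contra! k
    have s : (Set.univ : Set (Ω n)) ⊆
        {ω | 1 / (i + 3) < |X n ω - a i|} ∪ {ω | 1 / (j + 3) < |X n ω - a j|} := by
      intro ω _
      by_contra l
      simp only [Set.mem_union, Set.mem_ofPred_eq, not_or, not_lt] at l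
      have := abs_sub_le (a i) (X n ω) (a j)
      rw [abs_sub_comm (a i) (X n ω)] at this
      linarith [l.1, l.2]
    have := (measureReal_mono (μ := μ n) s).trans (measureReal_union_le _ _)
    rw [probReal_univ] at this
    linarith [l3 i, l3 j]
  have t0 : Tendsto (fun j : ℕ => 1 / ((j : ℝ) + 3)) atTop (𝓝 0) :=
    tendsto_const_nhds.div_atTop (tendsto_atTop_add_const_right _ _ tendsto_natCast_atTop_atTop)
  have hc : CauchySeq a := by
    refine cauchySeq_of_le_tendsto_0 (fun N : ℕ => 1 / ((N : ℝ) + 3) + 1 / (N + 3))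
      (fun i j N hi hj => (key i j).trans ?_) (by simpa using t0.add t0)
    gcongr
  obtain ⟨c, hc⟩ := cauchySeq_tendsto_of_complete hc
  have k2 : ∀ i : ℕ, |a i - c| ≤ 1 / (i + 3) := fun i =>
    le_of_tendsto_of_tendsto' (tendsto_const_nhds.sub hc).abs
      (by simpa using (tendsto_const_nhds (x := 1 / ((i : ℝ) + 3))).add t0) (key i)
  refine ⟨c, fun ε hε => tendsto_order.2 ⟨fun b hb => .of_forall fun n =>
    hb.trans_le measureReal_nonneg, fun b hb => ?_⟩⟩
  obtain ⟨j, j1, j2⟩ := ((t0.eventually (gt_mem_nhds hb)).and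
    (t0.eventually (gt_mem_nhds (half_pos hε)))).exists
  filter_upwards [ha j] with n hn
  refine lt_of_le_of_lt ((measureReal_mono fun ω hω => ?_).trans hn) j1
  have := abs_sub_le (X n ω) (a j) c
  simp only [Set.mem_ofPred_eq] at hω ⊢
  linarith [k2 j]

lemma cover {Ω ι : Type} [MeasurableSpace Ω] [Countable ι] (P : Measure Ω) [IsProbabilityMeasure P]
    (S : ι → Set Ω) (h : ∀ᵐ ω ∂P, ∃ i, ω ∈ S i) {ε : ℝ} (hε : 0 < ε) :
    ∃ Λ : Finset ι, (∀ i ∈ Λ, P (S i) ≠ 0) ∧ 1 - ε ≤ ∑ i ∈ Λ, P.real (S i) := by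
  classical
  have h1 : 1 ≤ ∑' i, P (S i) := by
    refine le_trans ?_ (measure_iUnion_le S)
    rw [← measure_univ (μ := P)]
    refine measure_mono_ae ?_
    filter_upwards [h] with ω hω _ using Set.mem_iUnion.2 hω
  rw [ENNReal.tsum_eq_iSup_sum] at h1
  have h2 : ENNReal.ofReal (1 - ε) < 1 := ENNReal.ofReal_lt_one.2 (by linarith)
  obtain ⟨Λ, hΛ⟩ := lt_iSup_iff.1 (h2.trans_le h1)
  refine ⟨Λ.filter fun i => P (S i) ≠ 0, fun i hi => (mem_filter.1 hi).2, ?_⟩
  rw [sum_filter_of_ne (p := fun i => P (S i) ≠ 0) fun i _ hi h0 => hi (by simp [Measure.real, h0])]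
  have := (ENNReal.ofReal_le_iff_le_toReal (ENNReal.sum_ne_top.2 fun i _ => measure_ne_top _ _)).1 hΛ.le
  rwa [ENNReal.toReal_sum fun i _ => measure_ne_top _ _] at this

instance {n : ℕ} : MeasurableSingletonClass (SimpleGraph (Fin n)) :=
  ⟨fun G => by
    have := measurable_edgeSet (V := Fin n) (measurableSet_singleton G.edgeSet)
    convert this
    ext; simp⟩

lemma markov (μ : ∀ n, Measure (SimpleGraph (Fin n))) [∀ n, IsProbabilityMeasure (μ n)]
    (f : ∀ n, SimpleGraph (Fin n) → ℝ) (h0 : ∀ n G, 0 ≤ f n G) {t θ c : ℝ} (hc : 0 < c)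
    (h : Tendsto (fun n => ∫ G, f n G ∂μ n) atTop (𝓝 t)) (ht : t < c * θ) :
    ∀ᶠ n in atTop, (μ n).real {G | c ≤ f n G} ≤ θ := by
  filter_upwards [h.eventually (gt_mem_nhds ht)] with n hn
  have := mul_meas_ge_le_integral_of_nonneg (μ := μ n) (.of_forall (h0 n)) .of_finite c
  exact le_of_mul_le_mul_left (this.trans hn.le) hc

lemma ball_fin {V : Type} {T : SimpleGraph V} (h : ∀ v, (T.neighborSet v).Finite) (o : V) (r : ℕ) :
    {u | T.edist o u ≤ r}.Finite := by
  induction r with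
  | zero =>
    refine (Set.finite_singleton o).subset fun u hu => ?_
    simp only [Set.mem_ofPred_eq, Nat.cast_zero, nonpos_iff_eq_zero, edist_eq_zero_iff] at hu
    exact hu.symm
  | succ r ih =>
    refine ((ih.biUnion fun v _ => h v).insert o).subset fun u hu => ?_
    simp only [Set.mem_ofPred_eq] at hu
    rw [SimpleGraph.edist_comm] at hu
    obtain ⟨p, hp⟩ := exists_walk_of_edist_ne_top (ne_top_of_le_ne_top (ENat.natCast_ne_top _) hu)
    have hl : p.length ≤ r + 1 := by exact_mod_cast hp.le.trans hu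
    cases p with
    | nil => simp
    | cons a q =>
      refine Or.inr (Set.mem_biUnion (x := _) ?_ a.symm)
      simp only [Set.mem_ofPred_eq]
      rw [SimpleGraph.edist_comm]
      refine (edist_le q).trans ?_
      rw [Walk.length_cons] at hl
      exact_mod_cast by omega

abbrev RG : Type := Σ m : ℕ, SimpleGraph (Fin m) × Fin m

instance : Setoid RG where
  r a b := ∃ φ : a.2.1 ≃g b.2.1, φ a.2.2 = b.2.2
  iseqv := ⟨fun _ => ⟨.refl, rfl⟩, fun ⟨φ, h⟩ => ⟨φ.symm, by rw [← h]; simp⟩,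
    fun ⟨φ, h⟩ ⟨ψ, h'⟩ => ⟨φ.trans ψ, by rw [← h', ← h]; rfl⟩⟩

def cl {V : Type} (G : SimpleGraph V) (v : V) (r : ℕ) (q : Quotient instSetoidRG) : Prop :=
  Iso G v r q.out.2.1 q.out.2.2

lemma cl_uniq {V : Type} {G : SimpleGraph V} {v : V} {r : ℕ} {q q' : Quotient instSetoidRG}
    (h : cl G v r q) (h' : cl G v r q') : q = q' := by
  obtain ⟨φ, h⟩ := h
  obtain ⟨ψ, h'⟩ := h'
  exact Quotient.out_equiv_out.1 ⟨φ.symm.trans ψ, by rw [← h', ← h]; simp⟩

lemma cl_ex {V : Type} {T : SimpleGraph V} (h : ∀ v, (T.neighborSet v).Finite) (o : V) (r : ℕ) :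
    ∃ q, cl T o r q := by
  have := (ball_fin h o r).fintype
  let a : RG := ⟨_, (T.induce {u | T.edist o u ≤ r}).overFin rfl,
    (T.induce {u | T.edist o u ≤ r}).overFinIso rfl ⟨o, by simp⟩⟩
  obtain ⟨ψ, hψ⟩ : a ≈ (⟦a⟧ : Quotient instSetoidRG).out := Setoid.symm (Quotient.mk_out a)
  exact ⟨⟦a⟧, ((T.induce {u | T.edist o u ≤ r}).overFinIso rfl).trans ψ, hψ⟩

open Classical in
noncomputable def frac {n : ℕ} (P : Fin n → Prop) : ℝ := (#{v | P v} : ℝ) / n

open Classical in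
noncomputable def Zp {n : ℕ} (β k h : ℝ) (G : SimpleGraph (Fin n)) : ℝ :=
  ∑ σ ∈ Fintype.piFinset fun _ : Fin n => ({-1, 1} : Finset ℝ),
    exp (β * ∑ e : Fin n × Fin n with e.1 < e.2 ∧ G.Adj e.1 e.2, σ e.1 * σ e.2
      + ∑ v, (k * G.degree v + h) * σ v)

lemma deg_N {n : ℕ} (G : SimpleGraph (Fin n)) (v : Fin n) [Fintype (G.neighborSet v)] :
    G.degree v = #(N G v) := by
  rw [← card_neighborFinset_eq_degree]; congr 1; ext; simp [N]

lemma Zp_eq {n : ℕ} (β k h : ℝ) (G : SimpleGraph (Fin n)) :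
    log (Zp β k h G) / n = phi (4 * β) (fun d => 2 * (k * d + h) - 2 * β * d)
      (fun d => β * d / 2 - (k * d + h)) G := by
  classical
  have e : Zp β k h G = (∑ σ, w (4 * β) (EE G) (fun u => 2 * (k * #(N G u) + h) - 2 * β * #(N G u)) σ)
      * exp (∑ u, (β * #(N G u) / 2 - (k * #(N G u) + h))) := by
    rw [sum_mul, Zp]
    symm
    refine sum_bij (fun τ _ v => 2 * X τ v - 1) (fun τ _ => ?_) (fun τ _ τ' _ e => ?_)
      (fun σ hσ => ⟨fun v => decide (σ v = 1), mem_univ _, ?_⟩) fun τ _ => ?_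
    · refine Fintype.mem_piFinset.2 fun v => ?_
      cases h : τ v <;> norm_num [X, h]
    · funext v
      have := congrFun e v
      cases h : τ v <;> cases h' : τ' v <;> first | rfl | norm_num [X, h, h'] at this
    · funext v
      have := Fintype.mem_piFinset.1 hσ v
      simp only [mem_insert, mem_singleton] at this
      rcases this with e | e <;> norm_num [X, e]
    · rw [w, ← exp_add]
      congr 1
      have h1 : ∑ e : Fin n × Fin n with e.1 < e.2 ∧ G.Adj e.1 e.2,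
          (2 * X τ e.1 - 1) * (2 * X τ e.2 - 1) = 4 * ∑ e ∈ EE G, X τ e.1 * X τ e.2
            + ∑ e ∈ EE G, (1 - 2 * (X τ e.1 + X τ e.2)) := by
        rw [mul_sum, ← sum_add_distrib]
        exact sum_congr (by ext; simp [mem_EE]) fun e _ => by ring
      have h2 := sum_EE G (fun u v => 1 - 2 * (X τ u + X τ v)) fun u v => by ring
      have h3 := sum_N G fun u v => X τ v
      have h4 : ∑ u, ∑ v ∈ N G u, (1 - 2 * (X τ u + X τ v)) =
          ∑ u, (#(N G u) : ℝ) - 4 * ∑ u, #(N G u) * X τ u := by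
        simp only [mul_add, sum_sub_distrib, sum_add_distrib, ← mul_sum, h3, sum_const, nsmul_eq_mul,
          mul_one]
        ring
      have h5 : ∑ u, (2 * (k * #(N G u) + h) - 2 * β * #(N G u)) * X τ u
          + ∑ u, (β * #(N G u) / 2 - (k * #(N G u) + h)) = ∑ u, (k * #(N G u) + h) * (2 * X τ u - 1)
          + β * (1 / 2 * (∑ u, (#(N G u) : ℝ) - 4 * ∑ u, #(N G u) * X τ u)) := by
        simp only [mul_sum, ← sum_add_distrib, ← sum_sub_distrib]
        exact sum_congr rfl fun u _ => by ring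
      simp only [deg_N]
      rw [h1, h2, h4]
      linarith
  rw [e, log_mul (sum_pos (fun _ _ => by exact exp_pos _) univ_nonempty).ne' (exp_pos _).ne', log_exp, phi,
    Fintype.card_fin]

lemma tail_eq {n : ℕ} (G : SimpleGraph (Fin n)) (Δ : ℕ) :
    (∑ u with Δ < #(N G u), (#(N G u) : ℝ)) / n = (∑ u, (#(N G u) : ℝ)) / n -
      ∑ j ∈ range (Δ + 1), j * frac fun u => #(N G u) = j := by
  classical
  have h1 := sum_filter_add_sum_filter_not univ (fun u => Δ < #(N G u)) fun u => (#(N G u) : ℝ)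
  have h2 : ∑ u with ¬ Δ < #(N G u), (#(N G u) : ℝ) =
      ∑ j ∈ range (Δ + 1), (j : ℝ) * #{u | #(N G u) = j} := by
    rw [← sum_fiberwise_of_maps_to (t := range (Δ + 1)) (g := fun u => #(N G u))
      (fun u hu => by simpa [Nat.lt_succ_iff] using hu)]
    refine sum_congr rfl fun j hj => ?_
    rw [sum_congr rfl (g := fun _ => (j : ℝ)) fun u hu => by rw [(mem_filter.1 hu).2], sum_const,
      nsmul_eq_mul, mul_comm]
    congr 3
    ext u
    have := mem_range.1 hj
    simp only [mem_filter, mem_univ, true_and]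
    omega
  simp only [frac, ← mul_div_assoc, ← sum_div, ← sub_div]
  congr 1
  rw [← h1, h2, add_sub_assoc, left_eq_add, sub_eq_zero]

open Classical in
theorem main (μ : (n : ℕ) → Measure (SimpleGraph (Fin n))) [∀ n, IsProbabilityMeasure (μ n)]
    (ν : Measure ℕ) [IsProbabilityMeasure ν] (hν : Integrable (fun j : ℕ => (j : ℝ)) ν)
    (h1 : ∀ j : ℕ, Tendsto (fun n => ∫ G, frac (fun v => G.degree v = j) ∂μ n) atTop
      (𝓝 (ν.real {j})))
    (h2 : Tendsto (fun n => ∫ G, (∑ v, (G.degree v : ℝ)) / n ∂μ n) atTop (𝓝 (∫ j, (j : ℝ) ∂ν)))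
    (ρ : Measure (SimpleGraph ℕ)) [IsProbabilityMeasure ρ]
    (h3 : ∀ᵐ T ∂ρ, T.IsAcyclic ∧ ∀ v, (T.neighborSet v).Finite)
    (h4 : ∀ r ≥ 1, ∀ (m : ℕ) (H : SimpleGraph (Fin m)) (o : Fin m), ∀ ε > 0,
      Tendsto (fun n => (μ n).real
        {G | ε < |frac (fun v => Iso G v r H o) - ρ.real {T | Iso T 0 r H o}|}) atTop (𝓝 0))
    (β k h : ℝ) (hβ : 0 ≤ β) :
    ∃ c : ℝ, ∀ ε > 0,
      Tendsto (fun n => (μ n).real {G | ε < |log (Zp β k h G) / n - c|}) atTop (𝓝 0) := by
  refine cauchy μ (fun n G => log (Zp β k h G) / n) fun δ hδ => ?_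
  wlog h9 : δ < 1 generalizing δ
  · obtain ⟨a, ha⟩ := this (1 / 2) (by norm_num) (by norm_num)
    exact ⟨a, .of_forall fun n => measureReal_le_one.trans (not_lt.1 h9)⟩
  simp only [deg_N] at h1 h2
  simp only [Zp_eq]
  have hs : HasSum (fun j : ℕ => j * ν.real {j}) (∫ j, (j : ℝ) ∂ν) := by
    rw [← Measure.sum_smul_dirac ν] at hν
    have := hasSum_integral_measure hν
    rw [Measure.sum_smul_dirac] at this
    simpa [Measure.real, mul_comm] using this
  have m0 : 0 ≤ ∫ j, (j : ℝ) ∂ν := integral_nonneg fun j => Nat.cast_nonneg j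
  generalize ∫ j, (j : ℝ) ∂ν = m at *
  have ak := abs_nonneg k
  have ah := abs_nonneg h
  obtain ⟨τ, τ0, H1⟩ := core (J := 4 * β) (C' := 2 * |k| + 2 * |h| + 2 * β)
    (bf := fun d => 2 * (k * d + h) - 2 * β * d) (κ := fun d => β * d / 2 - (k * d + h))
    (by positivity) (by positivity) (fun d => by
      have d0 : (0 : ℝ) ≤ d := Nat.cast_nonneg d
      rw [abs_le]
      constructor <;> nlinarith [le_abs_self k, neg_abs_le k, le_abs_self h, neg_abs_le h,
        mul_nonneg hβ d0, mul_nonneg ah d0])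
    (fun d => by
      have d0 : (0 : ℝ) ≤ d := Nat.cast_nonneg d
      rw [abs_le]
      constructor <;> nlinarith [le_abs_self k, neg_abs_le k, le_abs_self h, neg_abs_le h,
        mul_nonneg hβ d0, mul_nonneg ah d0, mul_nonneg ak d0])
    (δ := δ / 9) (by positivity) (C := (m + 1) / (δ / 3)) (by positivity)
  have e1 := markov μ (fun n G => (∑ v, (#(N G v) : ℝ)) / n) (fun n G => by positivity)
    (c := (m + 1) / (δ / 3)) (θ := δ / 3) (by positivity) h2 (by field_simp; linarith)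
  obtain ⟨Δ, hΔ⟩ := ((((tendsto_const_nhds (x := m)).sub hs.tendsto_sum_nat).comp
    (tendsto_add_atTop_nat 1)).eventually
    (gt_mem_nhds (a := τ * (δ / 3)) (by rw [sub_self]; positivity))).exists
  have e2 := markov μ (fun n G => (∑ u with Δ < #(N G u), (#(N G u) : ℝ)) / n)
    (fun n G => by positivity) (θ := δ / 3) τ0 (by
      simp only [tail_eq, integral_sub .of_finite .of_finite,
        integral_finsetSum _ fun _ _ => .of_finite, integral_const_mul]
      exact h2.sub (tendsto_finsetSum _ fun j _ => (h1 j).const_mul _)) hΔ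
  obtain ⟨R, ε, ε0, H2⟩ := H1 Δ
  obtain ⟨Λ, hΛ, hp⟩ := cover ρ (fun q => {T | cl T 0 (R + 1) q})
    (h3.mono fun T hT => cl_ex hT.2 0 (R + 1)) ε0
  obtain ⟨ζ, ζ0, hζ⟩ := small (c := #Λ) (by positivity) ε0
  have e3 := (tendsto_finsetSum Λ fun q _ =>
    h4 (R + 1) (by omega) _ q.out.2.1 q.out.2.2 ζ ζ0).eventually
      (gt_mem_nhds (a := δ / 3) (by simpa using hδ))
  have e4 : ∀ᶠ n in atTop, (μ n).real {G | ¬ Nice G ((m + 1) / (δ / 3)) τ ζ Δ R Λ
      (fun q => col q.out.2.1 (R + 1) q.out.2.2) fun q => ρ.real {T | cl T 0 (R + 1) q}} ≤ δ := by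
    filter_upwards [e1, e2, e3, eventually_gt_atTop 0] with n e1 e2 e3 n0
    have n1 : (0 : ℝ) < n := by exact_mod_cast n0
    refine le_trans (measureReal_mono fun G hG => ?_) (((measureReal_union_le _ _).trans
      (add_le_add ((measureReal_union_le _ _).trans (add_le_add e1 e2))
      ((measureReal_biUnion_finset_le _ _).trans e3.le))).trans (by linarith))
    by_contra l
    simp only [Set.mem_union, Set.mem_iUnion, Set.mem_ofPred_eq, not_or, not_le, not_exists,
      not_lt, div_lt_iff₀ n1] at l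
    refine hG ⟨⟨fun q u => cl G u (R + 1) q, fun i _ j _ u => cl_uniq, fun q hq u hu =>
      ⟨col_iso hu, ?_⟩, fun q hq => ?_⟩, by simpa, by simpa using l.1.1.le, by simpa using l.1.2.le⟩
    · obtain ⟨T, ⟨ψ, -⟩, hT⟩ := (Measure.exists_mem_of_measure_ne_zero_of_ae (hΛ q hq)
        (ae_restrict_of_ae h3))
      obtain ⟨φ, -⟩ := hu
      exact φ.isAcyclic_iff.2 (ψ.isAcyclic_iff.1 (hT.1.induce _))
    · have := l.2 q hq
      rw [frac, div_sub' n1.ne', abs_div, abs_of_pos n1, div_le_iff₀ n1, mul_comm (n : ℝ)] at this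
      rw [Fintype.card_fin]
      exact this
  obtain ⟨n', hn⟩ := e4.exists
  obtain ⟨G', hG'⟩ : ∃ G' : SimpleGraph (Fin n'), Nice G' ((m + 1) / (δ / 3)) τ ζ Δ R Λ
      (fun q => col q.out.2.1 (R + 1) q.out.2.2) fun q => ρ.real {T | cl T 0 (R + 1) q} := by
    by_contra! l
    simp [l] at hn
    linarith
  refine ⟨phi (4 * β) (fun d => 2 * (k * d + h) - 2 * β * d) (fun d => β * d / 2 - (k * d + h)) G',
    e4.mono fun n hn => (measureReal_mono fun G hG l => ?_).trans hn⟩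
  have a1 := H2 Λ _ _ ζ hp hζ G G' l hG'
  have a2 := H2 Λ _ _ ζ hp hζ G' G hG' l
  rw [Set.mem_ofPred_eq] at hG
  refine absurd hG (not_lt.2 (abs_le.2 ⟨?_, ?_⟩))
  · linarith
  · linarith

end Pool.Agent.H.MP_a763a9_pr
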